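import Mathlib

set_option autoImplicit false

namespace Pool.Agent.Helper210

open Matrix

variable {R : Type*} [CommRing R]

/-- Upper elementary matrix. -/
def E12 (f : R) : GL (Fin 2) R :=
  ⟨!![1, f; 0, 1], !![1, -f; 0, 1], by simp [Matrix.one_fin_two], by simp [Matrix.one_fin_two]⟩

/-- Lower elementary matrix. -/
def E21 (f : R) : GL (Fin 2) R :=
  ⟨!![1, 0; f, 1], !![1, 0; -f, 1], by simp [Matrix.one_fin_two], by simp [Matrix.one_fin_two]⟩

/-- Diagonal matrix. -/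
def Dg (u v : Rˣ) : GL (Fin 2) R :=
  ⟨!![(u : R), 0; 0, (v : R)], !![((u⁻¹ : Rˣ) : R), 0; 0, ((v⁻¹ : Rˣ) : R)],
    by simp [Matrix.one_fin_two], by simp [Matrix.one_fin_two]⟩

/-- The unipotent matrix fixing the vector `(1,1)`. -/
def TT (y : R) : GL (Fin 2) R :=
  ⟨!![1 - y, y; -y, 1 + y], !![1 + y, -y; y, 1 - y],
    by ext i j; fin_cases i <;> fin_cases j <;> simp [Matrix.mul_apply, Fin.sum_univ_two] <;> ring,
    by ext i j; fin_cases i <;> fin_cases j <;> simp [Matrix.mul_apply, Fin.sum_univ_two] <;> ring⟩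

@[simp] lemma coe_E12 (f : R) : ((E12 f : GL (Fin 2) R) : Matrix (Fin 2) (Fin 2) R) = !![1, f; 0, 1] := rfl
@[simp] lemma coe_E21 (f : R) : ((E21 f : GL (Fin 2) R) : Matrix (Fin 2) (Fin 2) R) = !![1, 0; f, 1] := rfl
@[simp] lemma coe_Dg (u v : Rˣ) : ((Dg u v : GL (Fin 2) R) : Matrix (Fin 2) (Fin 2) R) = !![(u : R), 0; 0, (v : R)] := rfl
@[simp] lemma coe_TT (y : R) : ((TT y : GL (Fin 2) R) : Matrix (Fin 2) (Fin 2) R) = !![1 - y, y; -y, 1 + y] := rfl

lemma gl_ext {A B : GL (Fin 2) R} (h : (A : Matrix (Fin 2) (Fin 2) R) = B) : A = B := Units.ext h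

lemma E12_mul (f g : R) : E12 f * E12 g = E12 (f + g) := by
  apply gl_ext
  ext i j; fin_cases i <;> fin_cases j <;> simp [Matrix.mul_apply, Fin.sum_univ_two] <;> ring

lemma E21_mul (f g : R) : E21 f * E21 g = E21 (f + g) := by
  apply gl_ext
  ext i j; fin_cases i <;> fin_cases j <;> simp [Matrix.mul_apply, Fin.sum_univ_two] <;> ring

lemma TT_mul (f g : R) : TT f * TT g = TT (f + g) := by
  apply gl_ext
  ext i j; fin_cases i <;> fin_cases j <;> simp [Matrix.mul_apply, Fin.sum_univ_two] <;> ring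

lemma Dg_mul (a b c d : Rˣ) : Dg a b * Dg c d = Dg (a * c) (b * d) := by
  apply gl_ext
  ext i j; fin_cases i <;> fin_cases j <;> simp [Matrix.mul_apply, Fin.sum_univ_two]

lemma E12_zero : E12 (0 : R) = 1 := by
  apply gl_ext; simp [Matrix.one_fin_two]
lemma E21_zero : E21 (0 : R) = 1 := by
  apply gl_ext; simp [Matrix.one_fin_two]
lemma TT_zero : TT (0 : R) = 1 := by
  apply gl_ext; simp [Matrix.one_fin_two]
lemma Dg_one : Dg (1 : Rˣ) 1 = 1 := by
  apply gl_ext; simp [Matrix.one_fin_two]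

lemma E12_inv (f : R) : (E12 f)⁻¹ = E12 (-f) := by
  rw [inv_eq_iff_mul_eq_one, E12_mul, add_neg_cancel, E12_zero]
lemma E21_inv (f : R) : (E21 f)⁻¹ = E21 (-f) := by
  rw [inv_eq_iff_mul_eq_one, E21_mul, add_neg_cancel, E21_zero]
lemma TT_inv (f : R) : (TT f)⁻¹ = TT (-f) := by
  rw [inv_eq_iff_mul_eq_one, TT_mul, add_neg_cancel, TT_zero]
lemma Dg_inv (a b : Rˣ) : (Dg a b)⁻¹ = Dg a⁻¹ b⁻¹ := by
  rw [inv_eq_iff_mul_eq_one, Dg_mul, mul_inv_cancel, mul_inv_cancel, Dg_one]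

lemma TT_pow (f : R) (n : ℕ) : (TT f) ^ n = TT (n * f) := by
  induction n with
  | zero => simp [TT_zero]
  | succ n ih => rw [pow_succ, ih, TT_mul]; congr 1; push_cast; ring

lemma Dg_pow (a b : Rˣ) (n : ℕ) : (Dg a b) ^ n = Dg (a ^ n) (b ^ n) := by
  induction n with
  | zero => simp [Dg_one]
  | succ n ih => rw [pow_succ, ih, Dg_mul, pow_succ, pow_succ]

/-- Conjugation of elementary matrices by diagonal ones. -/
lemma Dg_conj_E12 (a b : Rˣ) (f : R) :
    Dg a b * E12 f * (Dg a b)⁻¹ = E12 (a * (b⁻¹ : Rˣ) * f) := by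
  rw [Dg_inv]
  apply gl_ext
  ext i j; fin_cases i <;> fin_cases j <;> simp [Matrix.mul_apply, Fin.sum_univ_two] ; ring

lemma Dg_conj_E21 (a b : Rˣ) (f : R) :
    Dg a b * E21 f * (Dg a b)⁻¹ = E21 (b * (a⁻¹ : Rˣ) * f) := by
  rw [Dg_inv]
  apply gl_ext
  ext i j; fin_cases i <;> fin_cases j <;> simp [Matrix.mul_apply, Fin.sum_univ_two] ; ring

section map
variable {S : Type*} [CommRing S] (φ : R →+* S)

lemma map_E12 (f : R) : Matrix.GeneralLinearGroup.map φ (E12 f) = E12 (φ f) := by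
  apply gl_ext
  ext i j; fin_cases i <;> fin_cases j <;> simp
lemma map_E21 (f : R) : Matrix.GeneralLinearGroup.map φ (E21 f) = E21 (φ f) := by
  apply gl_ext
  ext i j; fin_cases i <;> fin_cases j <;> simp
lemma map_TT (f : R) : Matrix.GeneralLinearGroup.map φ (TT f) = TT (φ f) := by
  apply gl_ext
  ext i j; fin_cases i <;> fin_cases j <;> simp
lemma map_Dg (a b : Rˣ) : Matrix.GeneralLinearGroup.map φ (Dg a b) =
    Dg (Units.map (φ : R →* S) a) (Units.map (φ : R →* S) b) := by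
  apply gl_ext
  ext i j; fin_cases i <;> fin_cases j <;> simp

end map

end Pool.Agent.Helper210
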