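import Mathlib
import Pool.Agent.Helper210.Basic

set_option autoImplicit false

namespace Pool.Agent.Helper210

open Matrix

variable {K : Type*} [Field K] [CharZero K]

lemma unip (A D : GL (Fin 2) K) (h : D * A * D⁻¹ = A * A) (htf : IsOfFinOrder A → A = 1) :
    (A 0 0 + A 1 1 = 2) ∧ (A 0 0 * A 1 1 - A 0 1 * A 1 0 = 1) := by
  have hdet : (A : Matrix (Fin 2) (Fin 2) K).det = 1 := by
    have h1 := congrArg (fun Z : GL (Fin 2) K => (Z : Matrix (Fin 2) (Fin 2) K).det) h
    simp only [Units.val_mul, Matrix.det_mul] at h1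
    have h2 : (D : Matrix (Fin 2) (Fin 2) K).det * ((D⁻¹ : GL (Fin 2) K) : Matrix (Fin 2) (Fin 2) K).det = 1 := by
      rw [← Matrix.det_mul, ← Units.val_mul, mul_inv_cancel]; simp
    have h3 : (A : Matrix (Fin 2) (Fin 2) K).det ≠ 0 := by
      intro h0
      have h4 : (A : Matrix (Fin 2) (Fin 2) K).det * ((A⁻¹ : GL (Fin 2) K) : Matrix (Fin 2) (Fin 2) K).det = 1 := by
        rw [← Matrix.det_mul, ← Units.val_mul, mul_inv_cancel]; simp
      rw [h0, zero_mul] at h4
      exact zero_ne_one h4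
    have h5 : (A : Matrix (Fin 2) (Fin 2) K).det * 1 = (A : Matrix (Fin 2) (Fin 2) K).det * (A : Matrix (Fin 2) (Fin 2) K).det := by
      rw [← h1, ← h2]; ring
    exact (mul_left_cancel₀ h3 h5).symm
  have htr : (A : Matrix (Fin 2) (Fin 2) K).trace =
      ((A : Matrix (Fin 2) (Fin 2) K) * (A : Matrix (Fin 2) (Fin 2) K)).trace := by
    have h1 := congrArg (fun Z : GL (Fin 2) K => (Z : Matrix (Fin 2) (Fin 2) K).trace) h
    simp only [Units.val_mul] at h1
    rw [← h1, Matrix.trace_mul_comm, ← Matrix.mul_assoc, ← Units.val_mul, inv_mul_cancel]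
    simp
  rw [Matrix.det_fin_two] at hdet
  simp only [Matrix.trace_fin_two, Matrix.mul_apply, Fin.sum_univ_two] at htr
  have hprod : (A 0 0 + A 1 1 - 2) * (A 0 0 + A 1 1 + 1) = 0 := by
    linear_combination (2 : K) * hdet - htr
  rcases mul_eq_zero.mp hprod with h2 | h2
  · exact ⟨by linear_combination h2, hdet⟩
  · exfalso
    have hsq : (A : Matrix (Fin 2) (Fin 2) K) * A = - A - 1 := by
      have h3 : A 1 1 = -1 - A 0 0 := by linear_combination h2
      rw [h3] at hdet
      ext i j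
      fin_cases i <;> fin_cases j <;>
        simp [Matrix.mul_apply, Fin.sum_univ_two, h3]
      · linear_combination (-1 : K) * hdet
      · ring
      · ring
      · linear_combination (-1 : K) * hdet
    have hA3 : A ^ 3 = 1 := by
      apply Units.ext
      have : ((A ^ 3 : GL (Fin 2) K) : Matrix (Fin 2) (Fin 2) K) =
        (A : Matrix (Fin 2) (Fin 2) K) * ((A : Matrix (Fin 2) (Fin 2) K) * A) := by
        simp [pow_succ, Matrix.mul_assoc]
      rw [this, hsq, Matrix.mul_sub, Matrix.mul_neg, hsq]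
      simp
    have hA1 : A = 1 := htf (isOfFinOrder_iff_pow_eq_one.mpr ⟨3, by norm_num, hA3⟩)
    rw [hA1] at h2
    simp at h2
    norm_num at h2


omit [CharZero K] in
lemma nf1 (A : GL (Fin 2) K) (ht : A 0 0 + A 1 1 = 2) (hd : A 0 0 * A 1 1 - A 0 1 * A 1 0 = 1)
    (hne : A ≠ 1) : ∃ P : GL (Fin 2) K, P * A = E12 1 * P := by
  have h3 : A 1 1 = 2 - A 0 0 := by linear_combination ht
  rw [h3] at hd
  by_cases h01 : A 0 1 = 0
  · have h00 : A 0 0 = 1 := by
      rw [h01] at hd
      have : (A 0 0 - 1) ^ 2 = 0 := by linear_combination -hd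
      have := pow_eq_zero_iff (two_ne_zero) |>.mp this
      linear_combination this
    have h10 : A 1 0 ≠ 0 := by
      intro h10
      apply hne
      apply Units.ext
      ext i j
      fin_cases i <;> fin_cases j <;> simp [h01, h00, h10, h3]
      norm_num
    refine ⟨⟨!![0, (A 1 0)⁻¹; 1, 0], !![0, 1; A 1 0, 0], ?_, ?_⟩, ?_⟩
    · simp [Matrix.one_fin_two, h10]
    · simp [Matrix.one_fin_two, h10]
    · apply Units.ext
      ext i j
      fin_cases i <;> fin_cases j <;>
        simp [Matrix.mul_apply, Fin.sum_univ_two, h01, h00, h10, h3]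
      norm_num
  · refine ⟨⟨!![(A 0 1)⁻¹, 0; (A 0 0 - 1) / A 0 1, 1], !![A 0 1, 0; 1 - A 0 0, 1], ?_, ?_⟩, ?_⟩
    · ext i j
      fin_cases i <;> fin_cases j <;>
        simp [Matrix.mul_apply, Fin.sum_univ_two, h01]
    · ext i j
      fin_cases i <;> fin_cases j <;>
        simp [Matrix.mul_apply, Fin.sum_univ_two, h01]
      field_simp
      ring
    · apply Units.ext
      ext i j
      fin_cases i <;> fin_cases j <;>
        simp [Matrix.mul_apply, Fin.sum_univ_two, h3]
      · field_simp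
        ring
      · field_simp
      · field_simp
        linear_combination -hd
      · field_simp
        ring


/-- The unit `2` of a field of characteristic zero. -/
def twoK (K : Type*) [Field K] [CharZero K] : Kˣ := Units.mk0 2 two_ne_zero

lemma twoK_val : (twoK K : K) = 2 := rfl

lemma nf (A D : GL (Fin 2) K) (h : D * A * D⁻¹ = A * A) (htf : IsOfFinOrder A → A = 1)
    (hne : A ≠ 1) : ∃ (P : GL (Fin 2) K) (c : Kˣ),
      P * A * P⁻¹ = E12 1 ∧ P * D * P⁻¹ = Dg (twoK K * c) c := by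
  obtain ⟨ht, hd⟩ := unip A D h htf
  obtain ⟨P, hP⟩ := nf1 A ht hd hne
  have hP' : P * A * P⁻¹ = E12 1 := by rw [hP, mul_assoc, mul_inv_cancel, mul_one]
  set D' := P * D * P⁻¹ with hD'
  have h1 : D' * E12 1 = E12 1 * E12 1 * D' := by
    rw [← hP', hD']
    have : D * A = A * A * D := by rw [← h]; group
    calc P * D * P⁻¹ * (P * A * P⁻¹) = P * (D * A) * P⁻¹ := by group
      _ = P * (A * A * D) * P⁻¹ := by rw [this]
      _ = _ := by group
  have h2 := congrArg (fun Z : GL (Fin 2) K => (Z : Matrix (Fin 2) (Fin 2) K)) h1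
  simp only [Units.val_mul, coe_E12] at h2
  have h01 := congrFun (congrFun h2 0) 1
  have h00 := congrFun (congrFun h2 0) 0
  simp [Matrix.mul_apply, Fin.sum_univ_two] at h01 h00
  have h10 : D' 1 0 = 0 := h00
  have hne2 : D' 1 1 ≠ 0 := by
    intro h0
    have h4 : (D' : Matrix (Fin 2) (Fin 2) K).det * ((D'⁻¹ : GL (Fin 2) K) : Matrix (Fin 2) (Fin 2) K).det = 1 := by
      rw [← Matrix.det_mul, ← Units.val_mul, mul_inv_cancel]; simp
    rw [Matrix.det_fin_two, h10, h0] at h4
    simp at h4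
  have hD00 : D' 0 0 = 2 * D' 1 1 := by linear_combination h01
  set c : Kˣ := Units.mk0 (D' 1 1) hne2 with hc
  refine ⟨E12 (D' 0 1 / D' 1 1) * P, c, ?_, ?_⟩
  · calc E12 (D' 0 1 / D' 1 1) * P * A * (E12 (D' 0 1 / D' 1 1) * P)⁻¹
        = E12 (D' 0 1 / D' 1 1) * (P * A * P⁻¹) * (E12 (D' 0 1 / D' 1 1))⁻¹ := by group
      _ = E12 1 := by
        rw [hP', E12_inv, E12_mul, E12_mul]; congr 1; ring
  · calc E12 (D' 0 1 / D' 1 1) * P * D * (E12 (D' 0 1 / D' 1 1) * P)⁻¹
        = E12 (D' 0 1 / D' 1 1) * D' * (E12 (D' 0 1 / D' 1 1))⁻¹ := by rw [hD']; group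
      _ = _ := by
        rw [E12_inv]
        apply Units.ext
        rw [Units.val_mul, Units.val_mul, Matrix.eta_fin_two (D' : Matrix (Fin 2) (Fin 2) K), h10, hD00]
        ext i j
        fin_cases i <;> fin_cases j <;>
          simp [Matrix.mul_apply, Fin.sum_univ_two, hc, twoK_val]
        field_simp
        ring

omit [CharZero K] in
lemma diag_of_entries (X : GL (Fin 2) K) (h01 : X 0 1 = 0) (h10 : X 1 0 = 0) :
    ∃ a b : Kˣ, X = Dg a b := by
  have h4 : (X : Matrix (Fin 2) (Fin 2) K).det * ((X⁻¹ : GL (Fin 2) K) : Matrix (Fin 2) (Fin 2) K).det = 1 := by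
    rw [← Matrix.det_mul, ← Units.val_mul, mul_inv_cancel]; simp
  rw [Matrix.det_fin_two, h01, h10] at h4
  have ha : X 0 0 ≠ 0 := by intro h; rw [h] at h4; simp at h4
  have hb : X 1 1 ≠ 0 := by intro h; rw [h] at h4; simp at h4
  refine ⟨Units.mk0 _ ha, Units.mk0 _ hb, ?_⟩
  apply Units.ext
  ext i j
  fin_cases i <;> fin_cases j <;> simp [h01, h10]

lemma diag_of_comm (X : GL (Fin 2) K) (c : Kˣ) (h : X * Dg (twoK K * c) c = Dg (twoK K * c) c * X) :
    ∃ a b : Kˣ, X = Dg a b := by
  have h2 := congrArg (fun Z : GL (Fin 2) K => (Z : Matrix (Fin 2) (Fin 2) K)) h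
  simp only [Units.val_mul, coe_Dg] at h2
  have h01 := congrFun (congrFun h2 0) 1
  have h10 := congrFun (congrFun h2 1) 0
  simp [Matrix.mul_apply, Fin.sum_univ_two, twoK_val] at h01 h10
  have hc : (c : K) ≠ 0 := c.ne_zero
  apply diag_of_entries
  · have : (c : K) * X 0 1 = 0 := by linear_combination -h01
    exact (mul_eq_zero.mp this).resolve_left hc
  · have : (c : K) * X 1 0 = 0 := by linear_combination h10
    exact (mul_eq_zero.mp this).resolve_left hc

lemma upper_of (X : GL (Fin 2) K) (c : Kˣ)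
    (h : Dg (twoK K * c) c * X * (Dg (twoK K * c) c)⁻¹ = X * X)
    (htf : IsOfFinOrder X → X = 1) : X = E12 (X 0 1) := by
  obtain ⟨ht, hd⟩ := unip X _ h htf
  have h1 : Dg (twoK K * c) c * X = X * X * Dg (twoK K * c) c := by rw [← h]; group
  have h2 := congrArg (fun Z : GL (Fin 2) K => (Z : Matrix (Fin 2) (Fin 2) K)) h1
  simp only [Units.val_mul, coe_Dg] at h2
  have h00 := congrFun (congrFun h2 0) 0
  have h10 := congrFun (congrFun h2 1) 0
  simp [Matrix.mul_apply, Fin.sum_univ_two, twoK_val] at h00 h10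
  have hc : (c : K) ≠ 0 := c.ne_zero
  have h11 : X 1 1 = 2 - X 0 0 := by linear_combination ht
  rw [h11] at hd h10
  have e00 : X 0 0 = 1 := by
    have : (c : K) * (X 0 0 - 1) = 0 := by linear_combination (-1/2 : K) * h00 + (c : K) * hd
    have := (mul_eq_zero.mp this).resolve_left hc
    linear_combination this
  have e10 : X 1 0 = 0 := by
    have : (c : K) * X 1 0 = 0 := by linear_combination (-1/3 : K) * h10
    exact (mul_eq_zero.mp this).resolve_left hc
  apply Units.ext
  ext i j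
  fin_cases i <;> fin_cases j <;> simp [e00, e10, h11]
  norm_num

lemma lower_of (X : GL (Fin 2) K) (c : Kˣ)
    (h : (Dg (twoK K * c) c)⁻¹ * X * (Dg (twoK K * c) c) = X * X)
    (htf : IsOfFinOrder X → X = 1) : X = E21 (X 1 0) := by
  obtain ⟨ht, hd⟩ := unip X (Dg (twoK K * c) c)⁻¹ (by rw [inv_inv]; exact h) htf
  have h1 : X * Dg (twoK K * c) c = Dg (twoK K * c) c * (X * X) := by rw [← h]; group
  have h2 := congrArg (fun Z : GL (Fin 2) K => (Z : Matrix (Fin 2) (Fin 2) K)) h1
  simp only [Units.val_mul, coe_Dg] at h2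
  have h00 := congrFun (congrFun h2 0) 0
  have h01 := congrFun (congrFun h2 0) 1
  simp [Matrix.mul_apply, Fin.sum_univ_two, twoK_val] at h00 h01
  have hc : (c : K) ≠ 0 := c.ne_zero
  have h11 : X 1 1 = 2 - X 0 0 := by linear_combination ht
  rw [h11] at hd h01
  have e00 : X 0 0 = 1 := by
    have : (c : K) * (X 0 0 - 1) = 0 := by linear_combination (-1/2 : K) * h00 + (c : K) * hd
    have := (mul_eq_zero.mp this).resolve_left hc
    linear_combination this
  have e01 : X 0 1 = 0 := by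
    have : (c : K) * X 0 1 = 0 := by linear_combination (-1/3 : K) * h01
    exact (mul_eq_zero.mp this).resolve_left hc
  apply Units.ext
  ext i j
  fin_cases i <;> fin_cases j <;> simp [e00, e01, h11]
  norm_num

end Pool.Agent.Helper210
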