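import Mathlib
import Pool.Agent.Helper210.Basic
import Pool.Agent.Helper210.Lin

set_option autoImplicit false

namespace Pool.Agent.Helper210

open Matrix

section ident
variable {F : Type*} [Field F]

/-- First identity. -/
lemma ident1 (t : Fˣ) :
    E12 (((t : F) - 1) * ((t⁻¹ : Fˣ) : F)) * E21 (((t : F) - 1) * (-(t : F))) * Dg t⁻¹ t = TT ((t : F) - 1) := by
  have ht : (t : F) ≠ 0 := t.ne_zero
  apply Units.ext
  ext i j
  fin_cases i <;> fin_cases j <;>
    simp [Matrix.mul_apply, Fin.sum_univ_two]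
  · field_simp; ring

/-- The quotient polynomial used in the second identity. -/
def qq {R : Type*} [CommRing R] (t : R) : R := t^5 + 2 * t^4 + 3 * t^3 + 4 * t^2 + 5 * t + 6

/-- Second identity. -/
lemma ident2 [CharZero F] (t : Fˣ) (h : F) (hh : 8 * h = 1) :
    TT 8 * E12 (((t : F) - 1) * (-h)) =
      E12 (((t : F) - 1) * (-(h * qq (t : F)))) * E21 (((t : F) - 1) * (8 * ((t⁻¹ : Fˣ) : F) ^ 7)) *
        (Dg t⁻¹ t)⁻¹ ^ 7 *
        E12 (((t : F) - 1) * (((t⁻¹ : Fˣ) : F) ^ 7 * (h * (-49 + qq (t : F) * (8 - 7 * t))))) * TT 8 := by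
  have ht : (t : F) ≠ 0 := t.ne_zero
  have hh' : h = 1/8 := by field_simp; linear_combination hh
  subst hh'
  rw [Dg_inv, Dg_pow, inv_inv]
  apply Units.ext
  ext i j
  fin_cases i <;> fin_cases j <;>
    simp [Matrix.mul_apply, Fin.sum_univ_two, qq]
  · field_simp; ring
  · field_simp; ring
  · field_simp; ring
  · field_simp; ring

end ident

end Pool.Agent.Helper210
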