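import Mathlib
import Pool.Agent.Helper210.Basic

set_option autoImplicit false

namespace Pool.Agent.Helper210

open Matrix OnePoint
open scoped Pointwise

/-- The unit `2` of the rationals. -/
def two : ℚˣ := Units.mk0 2 (by norm_num)

/-- The two generators. -/
def gen : Bool → GL (Fin 2) ℚ
  | true => Dg two 1
  | false => TT 8

/-- attracting sets -/
def XS : Bool → Set (OnePoint ℚ)
  | true => {z | z = ∞ ∨ ∃ q : ℚ, z = (q : OnePoint ℚ) ∧ (4/3 ≤ q ∨ q ≤ -4/3)}
  | false => {z | ∃ q : ℚ, z = (q : OnePoint ℚ) ∧ (3/4 ≤ q ∧ q ≤ 1)}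

/-- repelling sets -/
def YS : Bool → Set (OnePoint ℚ)
  | true => {z | ∃ q : ℚ, z = (q : OnePoint ℚ) ∧ (q < 2/3 ∧ -2/3 < q)}
  | false => {z | ∃ q : ℚ, z = (q : OnePoint ℚ) ∧ (1 < q ∧ q < 5/4)}

lemma dg_smul_inf : (Dg two 1) • (∞ : OnePoint ℚ) = ∞ := by
  rw [smul_infty_eq_ite]; simp

lemma dg_smul (q : ℚ) : (Dg two 1) • (q : OnePoint ℚ) = ((2 * q : ℚ) : OnePoint ℚ) := by
  rw [smul_some_eq_ite]; simp [two]

lemma dg_inv_smul_inf : (Dg two 1)⁻¹ • (∞ : OnePoint ℚ) = ∞ := by
  rw [Dg_inv, smul_infty_eq_ite]; simp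

lemma dg_inv_smul (q : ℚ) : (Dg two 1)⁻¹ • (q : OnePoint ℚ) = ((q / 2 : ℚ) : OnePoint ℚ) := by
  rw [Dg_inv, smul_some_eq_ite]; simp [two]; ring

lemma tt_smul_inf (y : ℚ) (hy : y ≠ 0) :
    (TT y) • (∞ : OnePoint ℚ) = (((1 - y) / (-y) : ℚ) : OnePoint ℚ) := by
  rw [smul_infty_eq_ite]; simp [hy]

lemma tt_smul (y q : ℚ) : (TT y) • (q : OnePoint ℚ) =
    if (-y) * q + (1 + y) = 0 then ∞ else
      ((((1 - y) * q + y) / ((-y) * q + (1 + y)) : ℚ) : OnePoint ℚ) := by
  rw [smul_some_eq_ite]; simp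

lemma tt_ping (z : OnePoint ℚ) (hz : z ∉ YS false) : (TT (8 : ℚ)) • z ∈ XS false := by
  induction z using OnePoint.rec with
  | infty =>
    rw [tt_smul_inf 8 (by norm_num)]
    exact ⟨_, rfl, by norm_num, by norm_num⟩
  | coe q =>
    have hq : ¬ (1 < q ∧ q < 5/4) := fun h => hz ⟨q, rfl, h⟩
    rw [tt_smul]
    have hne : (-8 : ℚ) * q + (1 + 8) ≠ 0 := by
      intro h0
      have : q = 9/8 := by linarith
      exact hq (by rw [this]; norm_num)
    rw [if_neg hne]
    refine ⟨_, rfl, ?_⟩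
    rcases lt_or_ge 1 q with h1 | h1
    · have h2 : 5/4 ≤ q := by
        by_contra h3; exact hq ⟨h1, by linarith⟩
      have hneg : (-8 : ℚ) * q + (1 + 8) < 0 := by linarith
      rw [le_div_iff_of_neg hneg, div_le_iff_of_neg hneg]
      constructor <;> linarith
    · have hpos : 0 < (-8 : ℚ) * q + (1 + 8) := by linarith
      rw [le_div_iff₀ hpos, div_le_iff₀ hpos]
      constructor <;> linarith

lemma tt_pong (z : OnePoint ℚ) (hz : z ∉ XS false) : (TT (8 : ℚ))⁻¹ • z ∈ YS false := by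
  rw [TT_inv]
  induction z using OnePoint.rec with
  | infty =>
    rw [tt_smul_inf (-8) (by norm_num)]
    exact ⟨_, rfl, by norm_num, by norm_num⟩
  | coe q =>
    have hq : ¬ (3/4 ≤ q ∧ q ≤ 1) := fun h => hz ⟨q, rfl, h⟩
    rw [tt_smul]
    have hne : (-(-8) : ℚ) * q + (1 + -8) ≠ 0 := by
      intro h0
      have : q = 7/8 := by linarith
      exact hq (by rw [this]; norm_num)
    rw [if_neg hne]
    refine ⟨_, rfl, ?_⟩
    rcases lt_or_ge 1 q with h1 | h1
    · have hpos : 0 < (-(-8) : ℚ) * q + (1 + -8) := by linarith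
      rw [lt_div_iff₀ hpos, div_lt_iff₀ hpos]
      constructor <;> linarith
    · have h2 : q < 3/4 := by
        by_contra h3; exact hq ⟨by linarith, h1⟩
      have hneg : (-(-8) : ℚ) * q + (1 + -8) < 0 := by linarith
      rw [lt_div_iff_of_neg hneg, div_lt_iff_of_neg hneg]
      constructor <;> linarith

lemma dg_ping (z : OnePoint ℚ) (hz : z ∉ YS true) : (Dg two 1) • z ∈ XS true := by
  induction z using OnePoint.rec with
  | infty => rw [dg_smul_inf]; exact Or.inl rfl
  | coe q =>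
    have hq : ¬ (q < 2/3 ∧ -2/3 < q) := fun h => hz ⟨q, rfl, h⟩
    rw [dg_smul]
    refine Or.inr ⟨_, rfl, ?_⟩
    by_contra hcon
    push Not at hcon
    exact hq ⟨by linarith [hcon.1], by linarith [hcon.2]⟩

lemma dg_pong (z : OnePoint ℚ) (hz : z ∉ XS true) : (Dg two 1)⁻¹ • z ∈ YS true := by
  induction z using OnePoint.rec with
  | infty => exact absurd (Or.inl rfl) hz
  | coe q =>
    have hq : ¬ (4/3 ≤ q ∨ q ≤ -4/3) := fun h => hz (Or.inr ⟨q, rfl, h⟩)
    push Not at hq
    rw [dg_inv_smul]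
    exact ⟨_, rfl, by linarith [hq.1], by linarith [hq.2]⟩

lemma gen_injective : Function.Injective (FreeGroup.lift gen) := by
  apply FreeGroup.injective_lift_of_ping_pong gen XS YS
  · intro b; cases b
    · exact ⟨((1 : ℚ) : OnePoint ℚ), 1, rfl, by norm_num, by norm_num⟩
    · exact ⟨∞, Or.inl rfl⟩
  · intro i j hij
    rw [Function.onFun, Set.disjoint_left]
    intro z hz hz'
    cases i <;> cases j <;> simp_all [XS]
    · obtain ⟨q, rfl, h1, h2⟩ := hz
      simp at hz'
      rcases hz' with h | h <;> linarith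
    · obtain ⟨q, rfl, h1, h2⟩ := hz'
      simp at hz
      rcases hz with h | h <;> linarith
  · intro i j hij
    rw [Function.onFun, Set.disjoint_left]
    intro z hz hz'
    cases i <;> cases j <;> simp_all [YS]
    · obtain ⟨q, rfl, h1, h2⟩ := hz
      simp at hz'
      linarith [hz'.1]
    · obtain ⟨q, rfl, h1, h2⟩ := hz'
      simp at hz
      linarith [hz.1]
  · intro i j
    rw [Set.disjoint_left]
    intro z hz hz'
    cases i <;> cases j <;> simp only [XS, YS, Set.mem_setOf_eq] at hz hz'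
    · obtain ⟨q, rfl, h1, h2⟩ := hz
      simp at hz'
      linarith [hz'.1]
    · obtain ⟨q, rfl, h1, h2⟩ := hz
      simp at hz'
      linarith [hz'.1]
    · obtain ⟨q, rfl, h1, h2⟩ := hz'
      simp at hz
      rcases hz with h | h <;> linarith
    · obtain ⟨q, rfl, h1, h2⟩ := hz'
      simp at hz
      rcases hz with h | h <;> linarith
  · intro b
    rintro _ ⟨z, hz, rfl⟩
    cases b
    · exact tt_ping z hz
    · exact dg_ping z hz
  · intro b
    rintro _ ⟨z, hz, rfl⟩
    cases b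
    · exact tt_pong z hz
    · exact dg_pong z hz

/-- The subgroup generated by the two matrices is torsion free. -/
lemma gen_torsionfree (g : GL (Fin 2) ℚ) (hg : g ∈ Subgroup.closure ({Dg two 1, TT 8} : Set (GL (Fin 2) ℚ)))
    (hf : IsOfFinOrder g) : g = 1 := by
  have h1 : g ∈ (FreeGroup.lift gen).range := by
    rw [FreeGroup.range_lift_eq_closure]
    convert hg using 2
    ext y
    constructor
    · rintro ⟨b, rfl⟩
      cases b <;> simp [gen]
    · rintro (rfl | rfl)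
      · exact ⟨true, rfl⟩
      · exact ⟨false, rfl⟩
  obtain ⟨w, rfl⟩ := h1
  have hw : IsOfFinOrder w := by
    rw [isOfFinOrder_iff_pow_eq_one] at hf ⊢
    obtain ⟨n, hn, h⟩ := hf
    refine ⟨n, hn, gen_injective ?_⟩
    rw [map_pow, h, map_one]
  have : w = 1 := by
    rw [isOfFinOrder_iff_pow_eq_one] at hw
    obtain ⟨n, hn, h⟩ := hw
    exact (pow_eq_one_iff_left hn.ne').mp h
  rw [this, map_one]

end Pool.Agent.Helper210
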