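import Mathlib
import Pool.Agent.Helper210.Basic
import Pool.Agent.Helper210.Ping

set_option autoImplicit false

namespace Pool.Agent.Helper210

open Matrix LaurentPolynomial

/-- Laurent polynomials over the rationals. -/
abbrev L := LaurentPolynomial ℚ

/-- The unit `T`. -/
noncomputable def tu : Lˣ := ⟨T 1, T (-1), by rw [← T_add]; simp, by rw [← T_add]; simp⟩

/-- The unit `2`. -/
noncomputable def twoL : Lˣ := Units.map (C : ℚ →+* L).toMonoidHom two

lemma twoL_val : (twoL : L) = 2 := by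
  change (C (2 : ℚ) : L) = 2
  exact map_ofNat C 2

lemma twoL_inv_val : ((twoL⁻¹ : Lˣ) : L) = C (1/2 : ℚ) := by
  change (C ((2 : ℚ)⁻¹) : L) = _
  norm_num

/-- Evaluation at a unit. -/
noncomputable def ev {K : Type*} [Field K] [Algebra ℚ K] (w : Kˣ) : L →+* K := eval₂ (algebraMap ℚ K) w

section ev
variable {K : Type*} [Field K] [Algebra ℚ K] (w : Kˣ)

lemma ev_t : ev w (tu : L) = w := by
  change eval₂ (algebraMap ℚ K) w (T 1) = w
  rw [eval₂_T]; simp

lemma ev_ti : ev w ((tu⁻¹ : Lˣ) : L) = ((w⁻¹ : Kˣ) : K) := by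
  change eval₂ (algebraMap ℚ K) w (T (-1)) = _
  rw [eval₂_T]; simp

lemma ev_C (q : ℚ) : ev w (C q) = algebraMap ℚ K q := by
  change eval₂ (algebraMap ℚ K) w (C q) = _
  rw [eval₂_C]

end ev

/-- The set of generators over a ring with a unit `t` and a unit `2`. -/
def gens {R : Type*} [CommRing R] (tw t : Rˣ) : Set (GL (Fin 2) R) :=
  {Dg tw 1, Dg t 1, Dg t⁻¹ t, E12 ((t : R) - 1), E21 ((t : R) - 1), TT 8}

/-- The group. -/
noncomputable def GLp : Subgroup (GL (Fin 2) L) := Subgroup.closure (gens twoL tu)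

/-- kernel lemma -/
lemma torsion_kernel {R k : Type*} [CommRing R] [IsDomain R] [Field k] [CharZero k] (φ : R →+* k)
    (M : Matrix (Fin 2) (Fin 2) R) (hM : M.map φ = 1) (n : ℕ) (hn : 0 < n) (hp : M ^ n = 1) : M = 1 := by
  set S : Matrix (Fin 2) (Fin 2) R := ∑ i ∈ Finset.range n, M ^ i with hS
  have h1 : (M - 1) * S = 0 := by rw [hS, mul_geom_sum, hp, sub_self]
  have h2 : φ.mapMatrix S = (n : k) • (1 : Matrix (Fin 2) (Fin 2) k) := by
    rw [hS, map_sum]
    have : ∀ i ∈ Finset.range n, φ.mapMatrix (M ^ i) = 1 := by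
      intro i _
      rw [map_pow]
      have : φ.mapMatrix M = 1 := hM
      rw [this, one_pow]
    rw [Finset.sum_congr rfl this, Finset.sum_const, Finset.card_range, ← Nat.cast_smul_eq_nsmul k]
  have h3 : S.det ≠ 0 := by
    intro h0
    have : φ S.det = (n : k) ^ 2 := by
      rw [RingHom.map_det, h2]
      simp
    rw [h0, map_zero] at this
    exact pow_ne_zero 2 (Nat.cast_ne_zero.mpr hn.ne') this.symm
  have h4 : S.det • (M - 1) = 0 := by
    have := congrArg (fun Z => Z * S.adjugate) h1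
    simp only [Matrix.mul_assoc, Matrix.mul_adjugate, Matrix.zero_mul] at this
    simpa using this
  have h5 : M - 1 = 0 := (smul_eq_zero.mp h4).resolve_left h3
  exact sub_eq_zero.mp h5

lemma GLp_torsionfree (g : GL (Fin 2) L) (hg : g ∈ GLp) (hf : IsOfFinOrder g) : g = 1 := by
  set φ : L →+* ℚ := ev (K := ℚ) 1 with hφ
  have h1 : Matrix.GeneralLinearGroup.map φ g ∈
      Subgroup.closure ({Dg two 1, TT 8} : Set (GL (Fin 2) ℚ)) := by
    have h2 : Matrix.GeneralLinearGroup.map φ g ∈ Subgroup.map (Matrix.GeneralLinearGroup.map φ) GLp :=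
      ⟨g, hg, rfl⟩
    rw [GLp, MonoidHom.map_closure] at h2
    refine (Subgroup.closure_le _).mpr ?_ h2
    rintro _ ⟨y, hy, rfl⟩
    have ht : φ (tu : L) = 1 := by rw [hφ, ev_t]; simp
    have hti : φ ((tu⁻¹ : Lˣ) : L) = 1 := by rw [hφ, ev_ti]; simp
    have htu : Units.map (φ : L →* ℚ) tu = 1 := by ext; exact ht
    have htui : Units.map (φ : L →* ℚ) tu⁻¹ = 1 := by ext; exact hti
    have h2L : Units.map (φ : L →* ℚ) twoL = two := by
      ext
      change φ (twoL : L) = 2
      rw [twoL_val]; exact map_ofNat φ 2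
    have h8 : φ 8 = 8 := map_ofNat φ 8
    simp only [gens, Set.mem_insert_iff, Set.mem_singleton_iff] at hy
    rcases hy with rfl | rfl | rfl | rfl | rfl | rfl
    · rw [map_Dg, h2L, map_one]
      exact Subgroup.subset_closure (by simp)
    · rw [map_Dg, htu, map_one, Dg_one]; exact Subgroup.one_mem _
    · rw [map_Dg, htu, htui, Dg_one]; exact Subgroup.one_mem _
    · rw [map_E12, map_sub, ht, map_one, sub_self, E12_zero]; exact Subgroup.one_mem _
    · rw [map_E21, map_sub, ht, map_one, sub_self, E21_zero]; exact Subgroup.one_mem _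
    · rw [map_TT, h8]
      exact Subgroup.subset_closure (by simp)
  have h3 : Matrix.GeneralLinearGroup.map φ g = 1 := by
    apply gen_torsionfree _ h1
    exact MonoidHom.isOfFinOrder _ hf
  rw [isOfFinOrder_iff_pow_eq_one] at hf
  obtain ⟨n, hn, h⟩ := hf
  apply Units.ext
  apply torsion_kernel φ (g : Matrix (Fin 2) (Fin 2) L) _ n hn
  · have := congrArg Units.val h
    simpa using this
  · have := congrArg Units.val h3
    simpa using this

end Pool.Agent.Helper210
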