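import Mathlib
import Pool.Agent.Helper210.Basic
import Pool.Agent.Helper210.Lin
import Pool.Agent.Helper210.Grp
import Pool.Agent.Helper210.Fin

set_option autoImplicit false

namespace Pool.Agent.Helper210

open Matrix LaurentPolynomial

/-- `T` as a ring element. -/
noncomputable def tt : L := (tu : L)
/-- `T⁻¹` as a ring element. -/
noncomputable def ti : L := ((tu⁻¹ : Lˣ) : L)
/-- `1/2` as a ring element. -/
noncomputable def hf : L := C (1/2 : ℚ)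

lemma tt_ti : tt * ti = 1 := Units.mul_inv tu
lemma hf_two : 2 * hf = 1 := by
  rw [hf, ← twoL_inv_val, ← twoL_val]; exact Units.mul_inv twoL

lemma mem_dd : Dg twoL 1 ∈ GLp := Subgroup.subset_closure (by simp [gens])
lemma mem_DD : Dg tu 1 ∈ GLp := Subgroup.subset_closure (by simp [gens])
lemma mem_EE : Dg tu⁻¹ tu ∈ GLp := Subgroup.subset_closure (by simp [gens])
lemma mem_aa : E12 (tt - 1) ∈ GLp := Subgroup.subset_closure (by simp [gens, tt])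
lemma mem_bb : E21 (tt - 1) ∈ GLp := Subgroup.subset_closure (by simp [gens, tt])
lemma mem_xx : TT (8 : L) ∈ GLp := Subgroup.subset_closure (by simp [gens])

noncomputable def dd : GLp := ⟨Dg twoL 1, mem_dd⟩
noncomputable def DD : GLp := ⟨Dg tu 1, mem_DD⟩
noncomputable def EE : GLp := ⟨Dg tu⁻¹ tu, mem_EE⟩
noncomputable def aa : GLp := ⟨E12 (tt - 1), mem_aa⟩
noncomputable def bb : GLp := ⟨E21 (tt - 1), mem_bb⟩
noncomputable def xx : GLp := ⟨TT 8, mem_xx⟩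

/-- The coefficient ring. -/
noncomputable def RL : Subring L := Subring.closure {tt, ti, hf}

lemma tt_mem : tt ∈ RL := Subring.subset_closure (by simp)
lemma ti_mem : ti ∈ RL := Subring.subset_closure (by simp)
lemma hf_mem : hf ∈ RL := Subring.subset_closure (by simp)

section rep
variable {K : Type*} [Field K] [CharZero K] [Algebra ℚ K] (ψ : GLp →* GL (Fin 2) K)

/-- The evaluation property. -/
def Q (w : Kˣ) (θ θ' : K) (r : L) : Prop :=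
  ∃ (h1 : E12 ((tt - 1) * r) ∈ GLp) (h2 : E21 ((tt - 1) * r) ∈ GLp),
    ψ ⟨E12 ((tt - 1) * r), h1⟩ = E12 (θ * ev w r) ∧ ψ ⟨E21 ((tt - 1) * r), h2⟩ = E21 (θ' * ev w r)

lemma transport {x y g : GL (Fin 2) L} (hx : x ∈ GLp) (hg : g ∈ GLp) (h : g * x * g⁻¹ = y) :
    ∃ hy : y ∈ GLp, ψ ⟨y, hy⟩ = ψ ⟨g, hg⟩ * ψ ⟨x, hx⟩ * (ψ ⟨g, hg⟩)⁻¹ := by
  subst h
  refine ⟨GLp.mul_mem (GLp.mul_mem hg hx) (GLp.inv_mem hg), ?_⟩
  rw [← map_mul, ← map_inv, ← map_mul]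
  rfl

lemma transport_mul {x y z : GL (Fin 2) L} (hx : x ∈ GLp) (hy : y ∈ GLp) (h : x * y = z) :
    ∃ hz : z ∈ GLp, ψ ⟨z, hz⟩ = ψ ⟨x, hx⟩ * ψ ⟨y, hy⟩ := by
  subst h
  refine ⟨GLp.mul_mem hx hy, ?_⟩
  rw [← map_mul]
  rfl

lemma transport_inv {x z : GL (Fin 2) L} (hx : x ∈ GLp) (h : x⁻¹ = z) :
    ∃ hz : z ∈ GLp, ψ ⟨z, hz⟩ = (ψ ⟨x, hx⟩)⁻¹ := by
  subst h
  refine ⟨GLp.inv_mem hx, ?_⟩
  rw [← map_inv]
  rfl

variable {ψ}
variable {w : Kˣ} {θ θ' : K} {c α β : Kˣ}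

lemma Q_add {r s : L} (hr : Q ψ w θ θ' r) (hs : Q ψ w θ θ' s) : Q ψ w θ θ' (r + s) := by
  obtain ⟨h1, h2, e1, e2⟩ := hr
  obtain ⟨h1', h2', e1', e2'⟩ := hs
  obtain ⟨m1, f1⟩ := transport_mul ψ h1 h1' (z := E12 ((tt - 1) * (r + s))) (by rw [E12_mul]; congr 1; ring)
  obtain ⟨m2, f2⟩ := transport_mul ψ h2 h2' (z := E21 ((tt - 1) * (r + s))) (by rw [E21_mul]; congr 1; ring)
  refine ⟨m1, m2, ?_, ?_⟩
  · rw [f1, e1, e1', E12_mul, map_add, mul_add]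
  · rw [f2, e2, e2', E21_mul, map_add, mul_add]

lemma Q_neg {r : L} (hr : Q ψ w θ θ' r) : Q ψ w θ θ' (-r) := by
  obtain ⟨h1, h2, e1, e2⟩ := hr
  obtain ⟨m1, f1⟩ := transport_inv ψ h1 (z := E12 ((tt - 1) * (-r))) (by rw [E12_inv]; congr 1; ring)
  obtain ⟨m2, f2⟩ := transport_inv ψ h2 (z := E21 ((tt - 1) * (-r))) (by rw [E21_inv]; congr 1; ring)
  refine ⟨m1, m2, ?_, ?_⟩
  · rw [f1, e1, E12_inv, map_neg, mul_neg]
  · rw [f2, e2, E21_inv, map_neg, mul_neg]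

lemma Q_zero : Q ψ w θ θ' 0 := by
  have h1 : E12 ((tt - 1) * 0) = 1 := by rw [mul_zero, E12_zero]
  have h2 : E21 ((tt - 1) * 0) = 1 := by rw [mul_zero, E21_zero]
  refine ⟨by rw [h1]; exact GLp.one_mem, by rw [h2]; exact GLp.one_mem, ?_, ?_⟩
  · have h3 : θ * ev w 0 = 0 := by rw [map_zero, mul_zero]
    rw [h3, E12_zero]
    convert map_one ψ using 2
    exact Subtype.ext h1
  · have h3 : θ' * ev w 0 = 0 := by rw [map_zero, mul_zero]
    rw [h3, E21_zero]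
    convert map_one ψ using 2
    exact Subtype.ext h2

lemma Q_tt (hw : (w : K) = α * (β⁻¹ : Kˣ)) (hD : ψ DD = Dg α β) {r : L} (hr : Q ψ w θ θ' r) :
    Q ψ w θ θ' (tt * r) := by
  obtain ⟨h1, h2, e1, e2⟩ := hr
  obtain ⟨m1, f1⟩ := transport ψ h1 mem_DD (y := E12 ((tt - 1) * (tt * r)))
    (by rw [Dg_conj_E12]; congr 1; simp [tt]; ring)
  obtain ⟨m2, f2⟩ := transport ψ h2 (GLp.inv_mem mem_DD) (y := E21 ((tt - 1) * (tt * r)))
    (by rw [Dg_inv, Dg_conj_E21]; congr 1; simp [tt]; ring)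
  refine ⟨m1, m2, ?_, ?_⟩
  · rw [f1, e1]
    change ψ DD * _ * (ψ DD)⁻¹ = _
    rw [hD, Dg_conj_E12, map_mul, tt, ev_t, hw]
    congr 1; ring
  · rw [f2, e2]
    have : ψ ⟨(Dg tu 1)⁻¹, GLp.inv_mem mem_DD⟩ = (Dg α β)⁻¹ := by
      rw [← hD, ← map_inv]; rfl
    rw [this, Dg_inv, Dg_conj_E21, map_mul, tt, ev_t, hw, inv_inv]
    congr 1; ring

lemma Q_ti (hw : (w : K) = α * (β⁻¹ : Kˣ)) (hD : ψ DD = Dg α β) {r : L} (hr : Q ψ w θ θ' r) :
    Q ψ w θ θ' (ti * r) := by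
  obtain ⟨h1, h2, e1, e2⟩ := hr
  have hw' : w = α * β⁻¹ := by ext; simpa using hw
  obtain ⟨m1, f1⟩ := transport ψ h1 (GLp.inv_mem mem_DD) (y := E12 ((tt - 1) * (ti * r)))
    (by rw [Dg_inv, Dg_conj_E12]; congr 1; simp [ti]; ring)
  obtain ⟨m2, f2⟩ := transport ψ h2 mem_DD (y := E21 ((tt - 1) * (ti * r)))
    (by rw [Dg_conj_E21]; congr 1; simp [ti]; ring)
  refine ⟨m1, m2, ?_, ?_⟩
  · rw [f1, e1]
    have : ψ ⟨(Dg tu 1)⁻¹, GLp.inv_mem mem_DD⟩ = (Dg α β)⁻¹ := by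
      rw [← hD, ← map_inv]; rfl
    rw [this, Dg_inv, Dg_conj_E12, map_mul, ti, ev_ti, hw', mul_inv, inv_inv, Units.val_mul]
    congr 1; ring
  · rw [f2, e2]
    change ψ DD * _ * (ψ DD)⁻¹ = _
    rw [hD, Dg_conj_E21, map_mul, ti, ev_ti, hw', mul_inv, inv_inv, Units.val_mul]
    congr 1; ring

lemma Q_hf (hd : ψ dd = Dg (twoK K * c) c) {r : L} (hr : Q ψ w θ θ' r) :
    Q ψ w θ θ' (hf * r) := by
  obtain ⟨h1, h2, e1, e2⟩ := hr
  obtain ⟨m1, f1⟩ := transport ψ h1 (GLp.inv_mem mem_dd) (y := E12 ((tt - 1) * (hf * r)))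
    (by rw [Dg_inv, Dg_conj_E12, twoL_inv_val]; congr 1; simp [hf]; ring)
  obtain ⟨m2, f2⟩ := transport ψ h2 mem_dd (y := E21 ((tt - 1) * (hf * r)))
    (by rw [Dg_conj_E21, twoL_inv_val]; congr 1; simp [hf]; ring)
  have hev : ev w hf = (((twoK K)⁻¹ : Kˣ) : K) := by
    rw [hf, ev_C]; simp [twoK]
  have hcc : (c : K) * ((c⁻¹ : Kˣ) : K) = 1 := Units.mul_inv c
  refine ⟨m1, m2, ?_, ?_⟩
  · rw [f1, e1]
    have : ψ ⟨(Dg twoL 1)⁻¹, GLp.inv_mem mem_dd⟩ = (Dg (twoK K * c) c)⁻¹ := by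
      rw [← hd, ← map_inv]; rfl
    rw [this, Dg_inv, Dg_conj_E12, map_mul, hev, inv_inv, mul_inv, Units.val_mul]
    congr 1
    linear_combination (((twoK K)⁻¹ : Kˣ) : K) * θ * ev w r * hcc
  · rw [f2, e2]
    change ψ dd * _ * (ψ dd)⁻¹ = _
    rw [hd, Dg_conj_E21, map_mul, hev, mul_inv, Units.val_mul]
    congr 1
    linear_combination (((twoK K)⁻¹ : Kˣ) : K) * θ' * ev w r * hcc

lemma Q_of_mem (hw : (w : K) = α * (β⁻¹ : Kˣ)) (hD : ψ DD = Dg α β) (hd : ψ dd = Dg (twoK K * c) c)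
    (ha : ψ aa = E12 θ) (hb : ψ bb = E21 θ') {r : L} (hr : r ∈ RL) : Q ψ w θ θ' r := by
  have hone : Q ψ w θ θ' 1 := by
    refine ⟨by rw [mul_one]; exact mem_aa, by rw [mul_one]; exact mem_bb, ?_, ?_⟩
    · have h3 : θ * ev w 1 = θ := by rw [map_one, mul_one]
      rw [h3, ← ha]; congr 1
      exact Subtype.ext (by simp [aa])
    · have h3 : θ' * ev w 1 = θ' := by rw [map_one, mul_one]
      rw [h3, ← hb]; congr 1
      exact Subtype.ext (by simp [bb])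
  have key : ∀ s : L, Q ψ w θ θ' s → Q ψ w θ θ' (r * s) := by
    induction hr using Subring.closure_induction with
    | mem x hx =>
      simp only [Set.mem_insert_iff, Set.mem_singleton_iff] at hx
      rcases hx with rfl | rfl | rfl
      · intro s hs; exact Q_tt hw hD hs
      · intro s hs; exact Q_ti hw hD hs
      · intro s hs; exact Q_hf hd hs
    | zero => intro s _; rw [zero_mul]; exact Q_zero
    | one => intro s hs; rw [one_mul]; exact hs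
    | add x y _ _ hx hy => intro s hs; rw [add_mul]; exact Q_add (hx s hs) (hy s hs)
    | neg x _ hx => intro s hs; rw [neg_mul]; exact Q_neg (hx s hs)
    | mul x y _ _ hx hy => intro s hs; rw [mul_assoc]; exact hx _ (hy s hs)
  have := key 1 hone
  rwa [mul_one] at this

end rep

end Pool.Agent.Helper210
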