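import Mathlib
import Pool.Agent.Helper210.Rep

set_option autoImplicit false

namespace Pool.Agent.Helper210

open Matrix LaurentPolynomial

section core
variable {K : Type*} [Field K] [CharZero K] [Algebra ℚ K]

omit [CharZero K] [Algebra ℚ K] in
lemma scal_comm (p : Kˣ) (A : GL (Fin 2) K) : Dg p p * A = A * Dg p p := by
  apply gl_ext
  ext i j
  fin_cases i <;> fin_cases j <;> simp [Matrix.mul_apply, Fin.sum_univ_two, mul_comm]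

/-- Conjugate of a representation. -/
noncomputable def cj (P : GL (Fin 2) K) (ψ : GLp →* GL (Fin 2) K) : GLp →* GL (Fin 2) K :=
  (MulAut.conj P).toMonoidHom.comp ψ

omit [CharZero K] [Algebra ℚ K] in
lemma cj_apply (P : GL (Fin 2) K) (ψ : GLp →* GL (Fin 2) K) (x : GLp) :
    cj P ψ x = P * ψ x * P⁻¹ := rfl

omit [CharZero K] [Algebra ℚ K] in
lemma cj_tf (P : GL (Fin 2) K) (ψ : GLp →* GL (Fin 2) K)
    (htf : ∀ x, IsOfFinOrder (ψ x) → ψ x = 1) (x : GLp) (h : IsOfFinOrder (cj P ψ x)) :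
    cj P ψ x = 1 := by
  have h2 : ψ x = (MulAut.conj P).symm (cj P ψ x) := by
    rw [MulAut.conj_symm_apply, cj_apply]; group
  have h1 : IsOfFinOrder (ψ x) := by
    rw [h2]
    exact MonoidHom.isOfFinOrder (MulAut.conj P).symm.toMonoidHom h
  rw [cj_apply, htf x h1]; group

omit [CharZero K] [Algebra ℚ K] in
lemma cj_ne (P : GL (Fin 2) K) (ψ : GLp →* GL (Fin 2) K) (x : GLp) (h : ψ x ≠ 1) :
    cj P ψ x ≠ 1 := by
  intro h0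
  apply h
  have h2 : ψ x = P⁻¹ * cj P ψ x * P := by
    rw [cj_apply]; group
  rw [h2, h0]; group

/-- The element that every admissible representation kills. -/
noncomputable def g0 : GLp := DD ^ 2 * aa * (DD ^ 2)⁻¹ * aa⁻¹

lemma g0_coe : (g0 : GL (Fin 2) L) = E12 ((tt - 1) * ((tt - 1) * (tt + 1))) := by
  have h : (g0 : GL (Fin 2) L) = (Dg tu 1) ^ 2 * E12 (tt - 1) * ((Dg tu 1) ^ 2)⁻¹ * (E12 (tt - 1))⁻¹ := rfl
  rw [h, Dg_pow, Dg_conj_E12, E12_inv, E12_mul]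
  congr 1
  simp [tt]
  ring

/-- The data of a normalised representation. -/
structure Dat (K : Type*) [Field K] [CharZero K] [Algebra ℚ K] where
  ψ : GLp →* GL (Fin 2) K
  htf : ∀ x, IsOfFinOrder (ψ x) → ψ x = 1
  c : Kˣ
  α : Kˣ
  β : Kˣ
  α' : Kˣ
  β' : Kˣ
  θ : K
  θ' : K
  hd : ψ dd = Dg (twoK K * c) c
  hD : ψ DD = Dg α β
  hE : ψ EE = Dg α' β'
  ha : ψ aa = E12 θ
  hb : ψ bb = E21 θ'
  hg : ψ g0 ≠ 1

lemma dd_aa : dd * aa * dd⁻¹ = aa * aa := by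
  apply Subtype.ext
  change Dg twoL 1 * E12 (tt - 1) * (Dg twoL 1)⁻¹ = E12 (tt - 1) * E12 (tt - 1)
  rw [Dg_conj_E12, E12_mul, twoL_val]
  congr 1
  simp
  ring

lemma dd_bb : dd⁻¹ * bb * dd = bb * bb := by
  apply Subtype.ext
  change (Dg twoL 1)⁻¹ * E21 (tt - 1) * (Dg twoL 1) = E21 (tt - 1) * E21 (tt - 1)
  have h := Dg_conj_E21 (twoL⁻¹) 1 (tt - 1)
  rw [Dg_inv, inv_inv, inv_one] at h
  rw [Dg_inv, inv_one, h, E21_mul, twoL_val]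
  congr 1
  simp
  ring

lemma dd_DD : DD * dd = dd * DD := by
  apply Subtype.ext
  change Dg tu 1 * Dg twoL 1 = Dg twoL 1 * Dg tu 1
  rw [Dg_mul, Dg_mul, mul_comm tu twoL]

lemma dd_EE : EE * dd = dd * EE := by
  apply Subtype.ext
  change Dg tu⁻¹ tu * Dg twoL 1 = Dg twoL 1 * Dg tu⁻¹ tu
  rw [Dg_mul, Dg_mul, mul_comm tu⁻¹ twoL, mul_comm tu 1]

lemma exists_dat (ψ : GLp →* GL (Fin 2) K) (htf : ∀ x, IsOfFinOrder (ψ x) → ψ x = 1)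
    (hg : ψ g0 ≠ 1) : Nonempty (Dat K) := by
  have hne : ψ aa ≠ 1 := by
    intro h
    apply hg
    simp [g0, h]
  have hrel : ψ dd * ψ aa * (ψ dd)⁻¹ = ψ aa * ψ aa := by
    rw [← map_inv, ← map_mul, ← map_mul, ← map_mul, dd_aa]
  obtain ⟨P, c, hA, hD⟩ := nf (ψ aa) (ψ dd) hrel (htf aa) hne
  set ψ' := cj P ψ with hψ'
  have htf' := cj_tf P ψ htf
  have hdd : ψ' dd = Dg (twoK K * c) c := hD
  have haa : ψ' aa = E12 1 := hA
  obtain ⟨α, β, hαβ⟩ := diag_of_comm (ψ' DD) c (by rw [← hdd, ← map_mul, ← map_mul, dd_DD])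
  obtain ⟨α', β', hαβ'⟩ := diag_of_comm (ψ' EE) c (by rw [← hdd, ← map_mul, ← map_mul, dd_EE])
  have hbb := lower_of (ψ' bb) c (by rw [← hdd, ← map_inv, ← map_mul, ← map_mul, ← map_mul, dd_bb])
    (htf' bb)
  exact ⟨⟨ψ', htf', c, α, β, α', β', 1, _, hdd, hαβ, hαβ', haa, hbb, cj_ne P ψ g0 hg⟩⟩

namespace Dat

variable (D : Dat K)

/-- The eigenvalue. -/
def w : Kˣ := D.α * D.β⁻¹

lemma q {r : L} (hr : r ∈ RL) : Q D.ψ D.w D.θ D.θ' r :=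
  Q_of_mem (by simp [w]) D.hD D.hd D.ha D.hb hr

lemma q12 {r : L} (hr : r ∈ RL) : ∃ h : E12 ((tt - 1) * r) ∈ GLp,
    D.ψ ⟨E12 ((tt - 1) * r), h⟩ = E12 (D.θ * ev D.w r) := by
  obtain ⟨h, _, e, _⟩ := D.q hr
  exact ⟨h, e⟩

lemma q21 {r : L} (hr : r ∈ RL) : ∃ h : E21 ((tt - 1) * r) ∈ GLp,
    D.ψ ⟨E21 ((tt - 1) * r), h⟩ = E21 (D.θ' * ev D.w r) := by
  obtain ⟨_, h, _, e⟩ := D.q hr
  exact ⟨h, e⟩

lemma ev_tt : ev D.w tt = D.w := ev_t D.w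
lemma ev_ti' : ev D.w ti = ((D.w⁻¹ : Kˣ) : K) := ev_ti D.w

lemma psi_g0 : D.ψ g0 = E12 (D.θ * (((D.w : K) - 1) * ((D.w : K) + 1))) := by
  have hm : (tt - 1) * (tt + 1) ∈ RL :=
    RL.mul_mem (RL.sub_mem tt_mem RL.one_mem) (RL.add_mem tt_mem RL.one_mem)
  obtain ⟨h, e⟩ := D.q12 hm
  have h1 : g0 = ⟨E12 ((tt - 1) * ((tt - 1) * (tt + 1))), h⟩ := Subtype.ext g0_coe
  rw [h1, e, map_mul, map_sub, map_add, map_one, ev_tt]

lemma ne : D.θ ≠ 0 ∧ (D.w : K) - 1 ≠ 0 ∧ (D.w : K) + 1 ≠ 0 := by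
  have h := D.hg
  rw [psi_g0] at h
  refine ⟨?_, ?_, ?_⟩ <;>
  · intro h0
    apply h
    rw [h0]
    simp [E12_zero]

lemma hE' : (D.α' : K) = ((D.w⁻¹ : Kˣ) : K) ^ 2 * D.β' := by
  have hm : ti * ti ∈ RL := RL.mul_mem ti_mem ti_mem
  obtain ⟨h, e⟩ := D.q12 hm
  have h1 : (EE * aa * EE⁻¹ : GLp) = ⟨E12 ((tt - 1) * (ti * ti)), h⟩ := by
    apply Subtype.ext
    change Dg tu⁻¹ tu * E12 (tt - 1) * (Dg tu⁻¹ tu)⁻¹ = _
    rw [Dg_conj_E12]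
    congr 1
    simp [ti]
    ring
  have h2 := congrArg D.ψ h1
  rw [e, map_mul, map_mul, map_inv, D.hE, D.ha, Dg_conj_E12, map_mul, ev_ti'] at h2
  have h3 := congrArg (fun Z : GL (Fin 2) K => (Z : Matrix (Fin 2) (Fin 2) K) 0 1) h2
  simp only [coe_E12] at h3
  simp at h3
  have h4 := D.ne.1
  have h5 : (D.β' : K) ≠ 0 := D.β'.ne_zero
  have h6 : (D.α' : K) * (D.β' : K)⁻¹ = (D.w : K)⁻¹ * (D.w : K)⁻¹ := by
    apply mul_left_cancel₀ h4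
    linear_combination h3
  have h7 : (D.α' : K) = (D.α' : K) * (D.β' : K)⁻¹ * D.β' := by field_simp
  rw [h7, h6]
  simp
  ring

end Dat

end core

end Pool.Agent.Helper210
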