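import Mathlib
import Pool.Agent.Helper210.Rep

set_option autoImplicit false

namespace Pool.Agent.Helper210

open Matrix LaurentPolynomial

section
variable {R : Type*} [CommRing R]

lemma map_inj {F : Type*} [CommRing F] (φ : R →+* F) (hφ : Function.Injective φ)
    {A B : GL (Fin 2) R}
    (h : Matrix.GeneralLinearGroup.map φ A = Matrix.GeneralLinearGroup.map φ B) : A = B := by
  apply gl_ext
  ext i j
  apply hφ
  have := congrArg (fun Z : GL (Fin 2) F => (Z : Matrix (Fin 2) (Fin 2) F) i j) h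
  simpa using this

lemma ident1G (t : Rˣ) :
    E12 (((t : R) - 1) * ((t⁻¹ : Rˣ) : R)) * E21 (((t : R) - 1) * (-(t : R))) * Dg t⁻¹ t = TT ((t : R) - 1) := by
  have ht : (t : R) * ((t⁻¹ : Rˣ) : R) = 1 := Units.mul_inv t
  apply Units.ext
  ext i j
  fin_cases i <;> fin_cases j <;>
    simp [Matrix.mul_apply, Fin.sum_univ_two]
  linear_combination (-((t⁻¹ : Rˣ) : R) - (t : R) * ((t : R) * ((t⁻¹ : Rˣ) : R) + 1) + 2 * ((t : R) * ((t⁻¹ : Rˣ) : R) + 1)) * ht

lemma ident2G [IsDomain R] [CharZero R] (t : Rˣ) (h : R) (hh : 8 * h = 1) :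
    TT 8 * E12 (((t : R) - 1) * (-h)) =
      E12 (((t : R) - 1) * (-(h * qq (t : R)))) * E21 (((t : R) - 1) * (8 * ((t⁻¹ : Rˣ) : R) ^ 7)) *
        (Dg t⁻¹ t)⁻¹ ^ 7 *
        E12 (((t : R) - 1) * (((t⁻¹ : Rˣ) : R) ^ 7 * (h * (-49 + qq (t : R) * (8 - 7 * t))))) * TT 8 := by
  set φ : R →+* FractionRing R := algebraMap R (FractionRing R) with hφ
  have hinj : Function.Injective φ := IsFractionRing.injective R (FractionRing R)
  have : CharZero (FractionRing R) := IsFractionRing.charZero R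
  set t' := Units.map (φ : R →* FractionRing R) t with ht'
  have h1 : φ (t : R) = t' := rfl
  have h2 : φ ((t⁻¹ : Rˣ) : R) = ((t'⁻¹ : (FractionRing R)ˣ) : FractionRing R) := rfl
  have hq : φ (qq (t : R)) = qq (t' : FractionRing R) := by
    simp [qq, h1, show φ 2 = 2 from map_ofNat φ 2, show φ 3 = 3 from map_ofNat φ 3,
      show φ 4 = 4 from map_ofNat φ 4, show φ 5 = 5 from map_ofNat φ 5, show φ 6 = 6 from map_ofNat φ 6]
  have h8 : φ 8 = 8 := map_ofNat φ 8
  have h7 : φ 7 = 7 := map_ofNat φ 7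
  have h49 : φ 49 = 49 := map_ofNat φ 49
  apply map_inj φ hinj
  have hD : Matrix.GeneralLinearGroup.map φ (Dg t⁻¹ t) = Dg t'⁻¹ t' := by
    rw [map_Dg, ← ht', map_inv, ← ht']
  have := ident2 t' (φ h) (by rw [← h8, ← map_mul, hh, map_one])
  simp only [map_mul, map_pow, map_inv, map_TT, map_E12, map_E21, hD, map_sub, map_add, map_neg, map_one,
    h1, h2, hq, h8, h7, h49]
  exact this

end

end Pool.Agent.Helper210
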