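import Mathlib
import Pool.Agent.Helper210.Core1
import Pool.Agent.Helper210.IdentG

set_option autoImplicit false

namespace Pool.Agent.Helper210

open Matrix LaurentPolynomial

section core
variable {K : Type*} [Field K] [CharZero K] [Algebra ℚ K]

namespace Dat

variable (D : Dat K)

/-- First product. -/
lemma zz1 : ∃ h : TT (tt - 1) ∈ GLp, D.ψ ⟨TT (tt - 1), h⟩ =
    E12 (D.θ * ((D.w⁻¹ : Kˣ) : K)) * E21 (D.θ' * (-(D.w : K))) * Dg D.α' D.β' := by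
  obtain ⟨h1, e1⟩ := D.q12 ti_mem
  obtain ⟨h2, e2⟩ := D.q21 (RL.neg_mem tt_mem)
  obtain ⟨h3, e3⟩ := transport_mul D.ψ h1 h2 rfl
  obtain ⟨h4, e4⟩ := transport_mul D.ψ h3 mem_EE (z := TT (tt - 1)) (ident1G tu)
  refine ⟨h4, ?_⟩
  rw [e4, e3, e1, e2, map_neg, ev_tt, ev_ti']
  change _ * _ * D.ψ EE = _
  rw [D.hE]

/-- Second product. -/
lemma zz2 : ∃ h : TT (tt ^ 2 - 1) ∈ GLp, D.ψ ⟨TT (tt ^ 2 - 1), h⟩ =
    E12 (D.θ * (((D.w : K) + 1) * ((D.w⁻¹ : Kˣ) : K) ^ 2)) *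
    E21 (D.θ' * (-(((D.w : K) + 1) * (D.w : K) ^ 2))) * (Dg D.α' D.β') ^ 2 := by
  have m1 : (tt + 1) * ti ^ 2 ∈ RL := RL.mul_mem (RL.add_mem tt_mem RL.one_mem) (RL.pow_mem ti_mem 2)
  have m2 : -((tt + 1) * tt ^ 2) ∈ RL :=
    RL.neg_mem (RL.mul_mem (RL.add_mem tt_mem RL.one_mem) (RL.pow_mem tt_mem 2))
  obtain ⟨h1, e1⟩ := D.q12 m1
  obtain ⟨h2, e2⟩ := D.q21 m2
  obtain ⟨h3, e3⟩ := transport_mul D.ψ h1 h2 rfl
  obtain ⟨h4, e4⟩ := transport_mul D.ψ h3 (EE ^ 2).2 (z := TT (tt ^ 2 - 1)) (by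
    have h := ident1G (tu ^ 2)
    have h5 : ((tu ^ 2 : Lˣ) : L) = tt ^ 2 := by simp [tt]
    have h6 : (((tu ^ 2)⁻¹ : Lˣ) : L) = ti ^ 2 := by
      rw [← inv_pow]; simp [ti]
    rw [h5, h6] at h
    have h7 : ((EE ^ 2 : GLp) : GL (Fin 2) L) = Dg (tu ^ 2)⁻¹ (tu ^ 2) := by
      rw [← inv_pow, ← Dg_pow, Subgroup.coe_pow]; rfl
    have h8 : (tt - 1) * ((tt + 1) * ti ^ 2) = (tt ^ 2 - 1) * ti ^ 2 := by ring
    have h9 : (tt - 1) * (-((tt + 1) * tt ^ 2)) = (tt ^ 2 - 1) * (-(tt ^ 2)) := by ring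
    rw [h7, ← h, h8, h9])
  refine ⟨h4, ?_⟩
  rw [e4, e3, e1, e2, map_neg, map_mul, map_mul, map_pow, map_pow, map_add, map_one, ev_tt, ev_ti']
  change _ * _ * D.ψ (EE ^ 2) = _
  rw [map_pow, D.hE]

lemma prod : D.θ * D.θ' = ((D.w : K) - 1) ^ 2 := by
  obtain ⟨h1, e1⟩ := D.zz1
  obtain ⟨h2, e2⟩ := D.zz2
  have hc : (⟨TT (tt - 1), h1⟩ : GLp) * ⟨TT (tt ^ 2 - 1), h2⟩ =
      ⟨TT (tt ^ 2 - 1), h2⟩ * ⟨TT (tt - 1), h1⟩ := by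
    apply Subtype.ext
    change TT (tt - 1) * TT (tt ^ 2 - 1) = TT (tt ^ 2 - 1) * TT (tt - 1)
    rw [TT_mul, TT_mul, add_comm]
  have h3 := congrArg D.ψ hc
  rw [map_mul, map_mul, e1, e2] at h3
  have h4 := congrArg (fun Z : GL (Fin 2) K => (Z : Matrix (Fin 2) (Fin 2) K) 0 1) h3
  obtain ⟨n1, n2, n3⟩ := D.ne
  have hw : (D.w : K) ≠ 0 := D.w.ne_zero
  have hb : (D.β' : K) ≠ 0 := D.β'.ne_zero
  simp only [Dg_pow, Units.val_mul, coe_E12, coe_E21, coe_Dg, Units.val_pow_eq_pow_val, D.hE'] at h4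
  simp [Matrix.mul_apply, Fin.sum_univ_two] at h4
  field_simp at h4
  have h5 : ((D.w : K) + 1) * (D.θ * D.θ' - ((D.w : K) - 1) ^ 2) = 0 := by
    linear_combination h4
  have h6 := (mul_eq_zero.mp h5).resolve_left n3
  linear_combination h6

end Dat

end core

end Pool.Agent.Helper210
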