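import Mathlib
import Pool.Agent.Helper210.Core2

set_option autoImplicit false

namespace Pool.Agent.Helper210

open Matrix LaurentPolynomial

lemma charZeroL : CharZero L :=
  charZero_of_injective_algebraMap (R := ℚ) (A := L) (algebraMap ℚ L).injective

section core
variable {K : Type*} [Field K] [CharZero K] [Algebra ℚ K]

namespace Dat

/-- Normalisation. -/
lemma exists_norm (D : Dat K) : ∃ D' : Dat K, D'.θ = (D'.w : K) - 1 ∧ D'.θ' = (D'.w : K) - 1 := by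
  obtain ⟨n1, n2, n3⟩ := D.ne
  have hprod := D.prod
  set μ : Kˣ := Units.mk0 (((D.w : K) - 1) / D.θ) (div_ne_zero n2 n1) with hμ
  have hμv : (μ : K) = ((D.w : K) - 1) / D.θ := rfl
  have hμi : ((μ⁻¹ : Kˣ) : K) = D.θ / ((D.w : K) - 1) := by
    rw [Units.val_inv_eq_inv_val, hμv, inv_div]
  have hc : ∀ a b : Kˣ, Dg μ 1 * Dg a b * (Dg μ 1)⁻¹ = Dg a b := by
    intro a b
    rw [Dg_inv, Dg_mul, Dg_mul]
    congr 1
    · rw [mul_comm μ a, mul_inv_cancel_right]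
    · simp
  refine ⟨⟨cj (Dg μ 1) D.ψ, cj_tf _ _ D.htf, D.c, D.α, D.β, D.α', D.β', (D.w : K) - 1, (D.w : K) - 1,
    ?_, ?_, ?_, ?_, ?_, cj_ne _ _ _ D.hg⟩, rfl, rfl⟩
  · rw [cj_apply, D.hd, hc]
  · rw [cj_apply, D.hD, hc]
  · rw [cj_apply, D.hE, hc]
  · rw [cj_apply, D.ha, Dg_conj_E12]
    congr 1
    rw [hμv]
    simp
    field_simp
  · rw [cj_apply, D.hb, Dg_conj_E21]
    congr 1
    rw [hμi]
    simp
    field_simp
    linear_combination hprod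

variable (D : Dat K)

lemma zz1' (h1 : D.θ = (D.w : K) - 1) (h2 : D.θ' = (D.w : K) - 1) :
    ∃ h : TT (tt - 1) ∈ GLp, D.ψ ⟨TT (tt - 1), h⟩ =
      TT ((D.w : K) - 1) * Dg (D.β' * D.w⁻¹) (D.β' * D.w⁻¹) := by
  obtain ⟨h, e⟩ := D.zz1
  refine ⟨h, ?_⟩
  rw [e, h1, h2, ← ident1 D.w, mul_assoc (E12 _ * E21 _) (Dg _ _) (Dg _ _), Dg_mul]
  congr 2
  · ext
    rw [D.hE']
    simp
    ring
  · ext
    simp

/-- The image of `xx` commutes with `TT (w - 1)`, so it has a special shape. -/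
lemma shape (h1 : D.θ = (D.w : K) - 1) (h2 : D.θ' = (D.w : K) - 1) :
    ∃ (p : Kˣ) (s : K), D.ψ xx = Dg p p * TT s := by
  obtain ⟨h, e⟩ := D.zz1' h1 h2
  obtain ⟨n1, n2, n3⟩ := D.ne
  have hc : xx * (⟨TT (tt - 1), h⟩ : GLp) = ⟨TT (tt - 1), h⟩ * xx := by
    apply Subtype.ext
    change TT 8 * TT (tt - 1) = TT (tt - 1) * TT 8
    rw [TT_mul, TT_mul, add_comm]
  have h3 := congrArg D.ψ hc
  rw [map_mul, map_mul, e] at h3
  have h4 : D.ψ xx * TT ((D.w : K) - 1) = TT ((D.w : K) - 1) * D.ψ xx := by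
    have h5 : D.ψ xx * TT ((D.w : K) - 1) * Dg (D.β' * D.w⁻¹) (D.β' * D.w⁻¹) =
        TT ((D.w : K) - 1) * D.ψ xx * Dg (D.β' * D.w⁻¹) (D.β' * D.w⁻¹) := by
      rw [mul_assoc, h3, mul_assoc, mul_assoc, scal_comm]
    exact mul_right_cancel h5
  set X := D.ψ xx with hX
  have h00 := congrArg (fun Z : GL (Fin 2) K => (Z : Matrix (Fin 2) (Fin 2) K) 0 0) h4
  have h01 := congrArg (fun Z : GL (Fin 2) K => (Z : Matrix (Fin 2) (Fin 2) K) 0 1) h4
  simp only [Units.val_mul, coe_TT] at h00 h01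
  simp [Matrix.mul_apply, Fin.sum_univ_two] at h00 h01
  have e10 : X 1 0 = - X 0 1 := by
    apply mul_left_cancel₀ n2
    linear_combination -h00
  have e11 : X 1 1 = X 0 0 + 2 * X 0 1 := by
    apply mul_left_cancel₀ n2
    linear_combination -h01
  have hdet : (X 0 0 + X 0 1) ^ 2 ≠ 0 := by
    intro h0
    have h4 : (X : Matrix (Fin 2) (Fin 2) K).det * ((X⁻¹ : GL (Fin 2) K) : Matrix (Fin 2) (Fin 2) K).det = 1 := by
      rw [← Matrix.det_mul, ← Units.val_mul, mul_inv_cancel]; simp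
    rw [Matrix.det_fin_two, e10, e11] at h4
    have h6 : X 0 0 * (X 0 0 + 2 * X 0 1) - X 0 1 * -X 0 1 = 0 := by linear_combination h0
    rw [h6] at h4
    simp at h4
  have hp : X 0 0 + X 0 1 ≠ 0 := fun h0 => hdet (by rw [h0]; ring)
  refine ⟨Units.mk0 _ hp, X 0 1 / (X 0 0 + X 0 1), ?_⟩
  apply Units.ext
  ext i j
  fin_cases i <;> fin_cases j <;> simp [Matrix.mul_apply, Fin.sum_univ_two, e10, e11] <;> field_simp <;> ring

/-- The image of `xx` is a scalar times `TT 8`. -/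
lemma img_xx (h1 : D.θ = (D.w : K) - 1) (h2 : D.θ' = (D.w : K) - 1) :
    ∃ (p : Kˣ), D.ψ xx = Dg p p * TT 8 := by
  obtain ⟨p, s, hs⟩ := D.shape h1 h2
  obtain ⟨n1, n2, n3⟩ := D.ne
  refine ⟨p, ?_⟩
  -- the relation
  have hh : (8 : L) * hf ^ 3 = 1 := by
    have := hf_two
    calc (8 : L) * hf ^ 3 = (2 * hf) ^ 3 := by ring
      _ = 1 := by rw [this, one_pow]
  have hw : (8 : K) * (1 / 8) = 1 := by norm_num
  have hCZ := charZeroL
  have hrel := ident2G tu (hf ^ 3) hh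
  have hrelK := ident2 D.w (1 / 8 : K) hw
  have cm : ∀ n : ℕ, (n : L) ∈ RL := fun n => natCast_mem RL n
  have m3 : hf ^ 3 ∈ RL := RL.pow_mem hf_mem 3
  have mq : qq tt ∈ RL := by
    have h2' := cm 2
    have h3' := cm 3
    have h4' := cm 4
    have h5' := cm 5
    have h6' := cm 6
    push_cast at h2' h3' h4' h5' h6'
    exact RL.add_mem (RL.add_mem (RL.add_mem (RL.add_mem (RL.add_mem (RL.pow_mem tt_mem 5)
      (RL.mul_mem h2' (RL.pow_mem tt_mem 4))) (RL.mul_mem h3' (RL.pow_mem tt_mem 3)))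
      (RL.mul_mem h4' (RL.pow_mem tt_mem 2))) (RL.mul_mem h5' tt_mem)) h6'
  have m7 := cm 7
  have m8 := cm 8
  have m49 := cm 49
  push_cast at m7 m8 m49
  have mA : -(hf ^ 3) ∈ RL := RL.neg_mem m3
  have mB : -(hf ^ 3 * qq tt) ∈ RL := RL.neg_mem (RL.mul_mem m3 mq)
  have mC : 8 * ti ^ 7 ∈ RL := RL.mul_mem m8 (RL.pow_mem ti_mem 7)
  have mD : ti ^ 7 * (hf ^ 3 * (-49 + qq tt * (8 - 7 * tt))) ∈ RL :=
    RL.mul_mem (RL.pow_mem ti_mem 7) (RL.mul_mem m3 (RL.add_mem (RL.neg_mem m49)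
      (RL.mul_mem mq (RL.sub_mem m8 (RL.mul_mem m7 tt_mem)))))
  obtain ⟨iA, eA⟩ := D.q12 mA
  obtain ⟨iB, eB⟩ := D.q12 mB
  obtain ⟨iC, eC⟩ := D.q21 mC
  obtain ⟨iD, eD⟩ := D.q12 mD
  have hR : xx * (⟨_, iA⟩ : GLp) = ⟨_, iB⟩ * ⟨_, iC⟩ * (EE⁻¹) ^ 7 * ⟨_, iD⟩ * xx := by
    apply Subtype.ext
    simp only [Subgroup.coe_mul, Subgroup.coe_pow, Subgroup.coe_inv]
    exact hrel
  have h3 := congrArg D.ψ hR
  simp only [map_mul, map_pow, map_inv, eA, eB, eC, eD, D.hE] at h3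
  have v2 : ev D.w hf = 1 / 2 := by
    rw [hf, ev_C]; simp
  have v3 : ev D.w (hf ^ 3) = 1 / 8 := by rw [map_pow, v2]; norm_num
  have vt := D.ev_tt
  have vti := D.ev_ti'
  have vq : ev D.w (qq tt) = qq (D.w : K) := by
    simp only [qq, map_add, map_mul, map_pow, vt]
    simp only [show ev D.w 2 = 2 from map_ofNat (ev D.w) 2, show ev D.w 3 = 3 from map_ofNat (ev D.w) 3,
      show ev D.w 4 = 4 from map_ofNat (ev D.w) 4, show ev D.w 5 = 5 from map_ofNat (ev D.w) 5,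
      show ev D.w 6 = 6 from map_ofNat (ev D.w) 6]
  have v7 : ev D.w 7 = 7 := map_ofNat (ev D.w) 7
  have v8 : ev D.w 8 = 8 := map_ofNat (ev D.w) 8
  have v49 : ev D.w 49 = 49 := map_ofNat (ev D.w) 49
  simp only [map_mul, map_neg, map_add, map_sub, v3, vq, v7, v8, v49, vt, vti, h1, h2] at h3
  rw [show ev D.w hf ^ 3 = (1 / 8 : K) by rw [v2]; norm_num] at h3
  set κ₀ : Kˣ := D.β' * D.w⁻¹ with hκ₀
  have hDg : Dg D.α' D.β' = Dg κ₀ κ₀ * Dg D.w⁻¹ D.w := by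
    rw [Dg_mul]
    congr 1
    · ext
      rw [D.hE', hκ₀]
      simp
      ring
    · ext
      simp [hκ₀]
  set A := E12 (((D.w : K) - 1) * (-(1 / 8 : K))) with hA
  set B := E12 (((D.w : K) - 1) * (-((1 / 8 : K) * qq (D.w : K)))) with hB
  set C' := E21 (((D.w : K) - 1) * (8 * ((D.w⁻¹ : Kˣ) : K) ^ 7)) with hC'
  set F := E12 (((D.w : K) - 1) * (((D.w⁻¹ : Kˣ) : K) ^ 7 * ((1 / 8 : K) * (-49 + qq (D.w : K) * (8 - 7 * D.w))))) with hF
  set κ : Kˣ := (κ₀⁻¹) ^ 7 with hκ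
  have hpow : (Dg D.α' D.β')⁻¹ ^ 7 = Dg κ κ * (Dg D.w⁻¹ D.w)⁻¹ ^ 7 := by
    rw [hDg, Dg_mul, Dg_inv, Dg_inv, Dg_pow, Dg_pow, Dg_mul, hκ]
    congr 1
    · rw [mul_inv, mul_pow]
    · rw [mul_inv, mul_pow]
  rw [hpow, hs] at h3
  set W := (Dg D.w⁻¹ D.w)⁻¹ ^ 7 with hW
  have h5 : TT (s - 8) * A = Dg κ κ * (A * TT (s - 8)) := by
    have e1 : B * C' * W * F = TT 8 * A * (TT 8)⁻¹ := by
      rw [hrelK]; group
    have e2 : Dg p p * (TT s * A) = Dg p p * (Dg κ κ * (TT 8 * A * (TT 8)⁻¹) * TT s) := by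
      calc Dg p p * (TT s * A) = Dg p p * TT s * A := by rw [mul_assoc]
        _ = B * C' * (Dg κ κ * W) * F * (Dg p p * TT s) := h3
        _ = (B * C' * Dg κ κ) * W * F * Dg p p * TT s := by group
        _ = (Dg κ κ * (B * C')) * W * F * Dg p p * TT s := by rw [scal_comm κ (B * C')]
        _ = ((Dg κ κ * (B * C' * W * F)) * Dg p p) * TT s := by group
        _ = (Dg p p * (Dg κ κ * (B * C' * W * F))) * TT s := by
          rw [scal_comm p (Dg κ κ * (B * C' * W * F))]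
        _ = _ := by rw [e1]; group
    have e3 := mul_left_cancel e2
    have e4 : TT (s - 8) = (TT 8)⁻¹ * TT s := by
      rw [TT_inv, TT_mul]; congr 1; ring
    rw [e4]
    calc (TT 8)⁻¹ * TT s * A = (TT 8)⁻¹ * (TT s * A) := by group
      _ = (TT 8)⁻¹ * (Dg κ κ * (TT 8 * A * (TT 8)⁻¹) * TT s) := by rw [e3]
      _ = ((TT 8)⁻¹ * Dg κ κ) * (TT 8 * A * (TT 8)⁻¹) * TT s := by group
      _ = (Dg κ κ * (TT 8)⁻¹) * (TT 8 * A * (TT 8)⁻¹) * TT s := by rw [scal_comm κ (TT 8)⁻¹]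
      _ = _ := by group
  have h10 := congrArg (fun Z : GL (Fin 2) K => (Z : Matrix (Fin 2) (Fin 2) K) 1 0) h5
  have h11 := congrArg (fun Z : GL (Fin 2) K => (Z : Matrix (Fin 2) (Fin 2) K) 1 1) h5
  simp only [Units.val_mul, coe_TT, hA, coe_E12, coe_Dg] at h10 h11
  simp [Matrix.mul_apply, Fin.sum_univ_two] at h10 h11
  have hs8 : s = 8 := by
    by_contra hne
    have hne' : 8 - s ≠ 0 := fun h0 => hne (by linear_combination -h0)
    have hk : (κ : K) = 1 := by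
      apply mul_right_cancel₀ hne'
      rw [← h10, one_mul]
    rw [hk] at h11
    have : (8 - s) * ((D.w : K) - 1) = 0 := by linear_combination (-8 : K) * h11
    exact mul_ne_zero hne' n2 this
  rw [hs, hs8]

end Dat

end core

end Pool.Agent.Helper210
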