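import Mathlib
import Pool.Agent.Helper210.Core3

set_option autoImplicit false

namespace Pool.Agent.Helper210

open Matrix LaurentPolynomial

section core
variable {K : Type*} [Field K] [CharZero K] [Algebra ℚ K]

lemma exists_int [Algebra.IsAlgebraic ℚ K] (η : K) (hη : η ≠ 0) :
    ∃ (q : Polynomial ℤ) (m : ℤ), m ≠ 0 ∧ η * Polynomial.aeval η q = m := by
  have h1 : IsAlgebraic ℚ η := Algebra.IsAlgebraic.isAlgebraic η
  have h2 : IsAlgebraic ℤ η := (IsFractionRing.isAlgebraic_iff ℤ ℚ K).mpr h1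
  obtain ⟨p, hp0, hp⟩ := h2.exists_nonzero_coeff_and_aeval_eq_zero (mem_nonZeroDivisors_of_ne_zero hη)
  refine ⟨p.divX, -p.coeff 0, neg_ne_zero.mpr hp0, ?_⟩
  have h3 := congrArg (Polynomial.aeval η) (Polynomial.divX_mul_X_add p)
  rw [hp, map_add, map_mul, Polynomial.aeval_X, Polynomial.aeval_C] at h3
  push_cast
  simp only [algebraMap_int_eq, eq_intCast] at h3
  linear_combination h3

lemma exists_exp (m : ℤ) (hm : m ≠ 0) : ∃ (e j : ℕ) (k : ℤ), 3 ≤ j ∧ m * k = 2 ^ e * (2 ^ j - 1) := by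
  obtain ⟨e, m', hodd, hm'⟩ := Nat.exists_eq_two_pow_mul_odd (Int.natAbs_ne_zero.mpr hm)
  have hcop : Nat.Coprime 2 m' := (Nat.coprime_two_left).mpr hodd
  have hpos : 0 < m' := hodd.pos
  have h1 := Nat.ModEq.pow_totient hcop
  have h2 := h1.pow 3
  rw [one_pow, ← pow_mul] at h2
  have h3 : (m' : ℤ) ∣ 2 ^ (Nat.totient m' * 3) - 1 := by
    have := (Nat.modEq_iff_dvd.mp h2.symm)
    push_cast at this
    exact this
  have h4 : m ∣ 2 ^ e * (2 ^ (Nat.totient m' * 3) - 1) := by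
    rw [← Int.natAbs_dvd, hm']
    push_cast
    exact mul_dvd_mul_left _ h3
  obtain ⟨k, hk⟩ := h4
  refine ⟨e, Nat.totient m' * 3, k, ?_, hk.symm⟩
  have := Nat.totient_pos.mpr hpos
  omega

/-- The group of scalar multiples of the range. -/
def PP (ψ : GLp →* GL (Fin 2) K) : Subgroup (GL (Fin 2) K) where
  carrier := {h | ∃ (κ : Kˣ) (x : GLp), h = Dg κ κ * ψ x}
  mul_mem' := by
    rintro _ _ ⟨κ, x, rfl⟩ ⟨κ', y, rfl⟩
    refine ⟨κ * κ', x * y, ?_⟩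
    rw [map_mul, ← Dg_mul]
    calc Dg κ κ * ψ x * (Dg κ' κ' * ψ y) = Dg κ κ * (ψ x * Dg κ' κ') * ψ y := by group
      _ = Dg κ κ * (Dg κ' κ' * ψ x) * ψ y := by rw [← scal_comm]
      _ = _ := by group
  one_mem' := ⟨1, 1, by simp [Dg_one]⟩
  inv_mem' := by
    rintro _ ⟨κ, x, rfl⟩
    refine ⟨κ⁻¹, x⁻¹, ?_⟩
    rw [map_inv, ← Dg_inv, _root_.mul_inv_rev]
    have := scal_comm κ⁻¹ (ψ x)⁻¹
    rw [← Dg_inv] at this
    exact this.symm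

omit [CharZero K] [Algebra ℚ K] in
lemma mem_PP_of_range {ψ : GLp →* GL (Fin 2) K} (x : GLp) : ψ x ∈ PP ψ :=
  ⟨1, x, by simp [Dg_one]⟩

omit [CharZero K] [Algebra ℚ K] in
lemma scal_mem_PP {ψ : GLp →* GL (Fin 2) K} (κ : Kˣ) : Dg κ κ ∈ PP ψ :=
  ⟨κ, 1, by simp⟩

omit [CharZero K] [Algebra ℚ K] in
lemma comm_mem {ψ : GLp →* GL (Fin 2) K} {h h' : GL (Fin 2) K} (m : h ∈ PP ψ) (m' : h' ∈ PP ψ) :
    h * h' * h⁻¹ * h'⁻¹ ∈ ψ.range := by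
  obtain ⟨κ, x, rfl⟩ := m
  obtain ⟨κ', y, rfl⟩ := m'
  refine ⟨x * y * x⁻¹ * y⁻¹, ?_⟩
  rw [map_mul, map_mul, map_mul, map_inv, map_inv]
  symm
  calc Dg κ κ * ψ x * (Dg κ' κ' * ψ y) * (Dg κ κ * ψ x)⁻¹ * (Dg κ' κ' * ψ y)⁻¹
      = Dg κ κ * (ψ x * Dg κ' κ') * ψ y * (ψ x)⁻¹ * (Dg κ κ)⁻¹ * (ψ y)⁻¹ * (Dg κ' κ')⁻¹ := by group
    _ = (Dg κ κ * Dg κ' κ') * (ψ x * ψ y * (ψ x)⁻¹) * (Dg κ κ)⁻¹ * (ψ y)⁻¹ * (Dg κ' κ')⁻¹ := by
        rw [← scal_comm]; group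
    _ = (ψ x * ψ y * (ψ x)⁻¹) * (Dg κ' κ' * Dg κ κ) * (Dg κ κ)⁻¹ * (ψ y)⁻¹ * (Dg κ' κ')⁻¹ := by
        rw [Dg_mul, scal_comm, Dg_mul, mul_comm κ κ']
    _ = (ψ x * ψ y * (ψ x)⁻¹) * (Dg κ' κ' * (ψ y)⁻¹) * (Dg κ' κ')⁻¹ := by group
    _ = (ψ x * ψ y * (ψ x)⁻¹) * ((ψ y)⁻¹ * Dg κ' κ') * (Dg κ' κ')⁻¹ := by rw [scal_comm]
    _ = _ := by group

lemma w0_fin : IsOfFinOrder (E12 (1 : K) * E21 (-1) * E12 1) := by
  rw [isOfFinOrder_iff_pow_eq_one]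
  refine ⟨4, by norm_num, ?_⟩
  have h1 : ((E12 (1 : K) * E21 (-1) * E12 1 : GL (Fin 2) K) : Matrix (Fin 2) (Fin 2) K) = !![0, 1; -1, 0] := by
    ext i j
    fin_cases i <;> fin_cases j <;> simp [Matrix.mul_apply, Fin.sum_univ_two]
  apply gl_ext
  rw [Units.val_pow_eq_pow_val, h1, pow_succ, pow_succ, pow_succ, pow_one]
  ext i j
  fin_cases i <;> fin_cases j <;> simp [Matrix.mul_apply, Fin.sum_univ_two]

lemma w0_ne : (E12 (1 : K) * E21 (-1) * E12 1) ≠ 1 := by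
  intro h
  have h1 := congrArg (fun Z : GL (Fin 2) K => (Z : Matrix (Fin 2) (Fin 2) K) 0 0) h
  simp [Matrix.mul_apply, Fin.sum_univ_two] at h1

/-- Words in `TT 1` and `Dg 2 1`. -/
lemma word1 : E12 (1 : K) = TT 1 * (Dg (twoK K) 1 * TT 1 * (Dg (twoK K) 1)⁻¹) ^ 2 * (TT 1)⁻¹ := by
  rw [Dg_inv, TT_inv]
  have h2 : ((twoK K : Kˣ) : K) = 2 := rfl
  have h3 : (((twoK K)⁻¹ : Kˣ) : K) = 1 / 2 := by rw [Units.val_inv_eq_inv_val, h2]; norm_num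
  have h4 : (2 : K) ≠ 0 := two_ne_zero
  apply gl_ext
  rw [pow_two]
  simp only [Units.val_mul, coe_TT, coe_E12, coe_Dg, h2, h3]
  ext i j
  fin_cases i <;> fin_cases j <;> simp [Matrix.mul_apply, Fin.sum_univ_two] <;> norm_num

lemma word2 : E21 (-1 : K) = (E12 1)⁻¹ * TT 1 * E12 1 := by
  rw [E12_inv]
  apply gl_ext
  simp only [Units.val_mul, coe_TT, coe_E12, coe_E21]
  ext i j
  fin_cases i <;> fin_cases j <;> simp [Matrix.mul_apply, Fin.sum_univ_two] <;> norm_num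

lemma word3 : E12 (1 : K) = Dg (twoK K) 1 * E12 1 * (Dg (twoK K) 1)⁻¹ * (E12 1)⁻¹ := by
  rw [Dg_conj_E12, E12_inv, E12_mul, twoK_val]
  congr 1
  simp
  norm_num

lemma word4 : E21 (-1 : K) = (Dg (twoK K) 1)⁻¹ * E21 (-1) * (Dg (twoK K) 1)⁻¹⁻¹ * (E21 (-1))⁻¹ := by
  rw [Dg_inv, Dg_conj_E21, E21_inv, E21_mul, inv_inv, twoK_val]
  congr 1
  simp
  norm_num

/-- Integer multiples in the image. -/
lemma ints (D : Dat K) (h1 : D.θ = (D.w : K) - 1) (h2 : D.θ' = (D.w : K) - 1)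
    (q : Polynomial ℤ) (m : ℤ) (hm : ((D.w : K) - 1) * Polynomial.aeval ((D.w : K) - 1) q = m)
    (e : ℕ) (k : ℤ) :
    E12 ((m * k : ℤ) * (1 / 2 : K) ^ e) ∈ D.ψ.range ∧ E21 ((m * k : ℤ) * (1 / 2 : K) ^ e) ∈ D.ψ.range := by
  set r0 : L := Polynomial.aeval (tt - 1) q with hr0
  have m0 : r0 ∈ RL := by
    rw [hr0, Polynomial.aeval_def, Polynomial.eval₂_eq_sum]
    apply Subring.sum_mem
    intro i _
    exact RL.mul_mem (by simpa using intCast_mem RL _) (RL.pow_mem (RL.sub_mem tt_mem RL.one_mem) i)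
  have v0 : ev D.w r0 = Polynomial.aeval ((D.w : K) - 1) q := by
    rw [hr0]
    have := Polynomial.hom_eval₂ q (algebraMap ℤ L) (ev D.w) (tt - 1)
    rw [Polynomial.aeval_def, this, Polynomial.aeval_def, map_sub, map_one, D.ev_tt]
    congr 1
    exact RingHom.ext_int _ _
  have v2 : ev D.w hf = 1 / 2 := by
    rw [hf, ev_C]; simp
  have mk : r0 * ((k : L) * hf ^ e) ∈ RL :=
    RL.mul_mem m0 (RL.mul_mem (intCast_mem RL k) (RL.pow_mem hf_mem e))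
  have vk : ((D.w : K) - 1) * ev D.w (r0 * ((k : L) * hf ^ e)) = (m * k : ℤ) * (1 / 2 : K) ^ e := by
    rw [map_mul, map_mul, map_pow, v2, v0, map_intCast]
    push_cast
    linear_combination (k : K) * (1 / 2) ^ e * hm
  obtain ⟨i1, e1⟩ := D.q12 mk
  obtain ⟨i2, e2⟩ := D.q21 mk
  rw [h1, vk] at e1
  rw [h2, vk] at e2
  exact ⟨⟨_, e1⟩, ⟨_, e2⟩⟩

theorem core_false [Algebra.IsAlgebraic ℚ K] (D : Dat K) (h1 : D.θ = (D.w : K) - 1)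
    (h2 : D.θ' = (D.w : K) - 1) : False := by
  obtain ⟨n1, n2, n3⟩ := D.ne
  obtain ⟨q, m, hm0, hm⟩ := exists_int ((D.w : K) - 1) n2
  obtain ⟨e, j, k, hj, hk⟩ := exists_exp m hm0
  have hh : (2 : K) * (1 / 2) = 1 := by norm_num
  have hpe : ∀ n : ℕ, (2 : K) ^ n * (1 / 2) ^ n = 1 := by
    intro n; rw [← mul_pow, hh, one_pow]
  -- the diagonal matrix `diag(2,1)`
  have pD : Dg (twoK K) 1 ∈ PP D.ψ := by
    have : Dg (twoK K) 1 = Dg D.c⁻¹ D.c⁻¹ * D.ψ dd := by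
      rw [D.hd, Dg_mul]
      congr 1
      · rw [mul_comm (twoK K), inv_mul_cancel_left]
      · simp
    rw [this]
    exact (PP D.ψ).mul_mem (scal_mem_PP _) (mem_PP_of_range _)
  obtain ⟨p, hp⟩ := D.img_xx h1 h2
  have pT : TT (8 : K) ∈ PP D.ψ := by
    have : TT (8 : K) = Dg p⁻¹ p⁻¹ * D.ψ xx := by
      rw [hp, ← mul_assoc, Dg_mul, inv_mul_cancel, Dg_one, one_mul]
    rw [this]
    exact (PP D.ψ).mul_mem (scal_mem_PP _) (mem_PP_of_range _)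
  have ra : E12 (((2 : K) ^ j - 1) * (1 / 2 : K) ^ j) ∈ PP D.ψ := by
    obtain ⟨⟨x, hx⟩, _⟩ := ints D h1 h2 q m hm (e + j) k
    have : ((m * k : ℤ) : K) * (1 / 2 : K) ^ (e + j) = ((2 : K) ^ j - 1) * (1 / 2 : K) ^ j := by
      rw [hk]; push_cast; rw [pow_add]
      linear_combination ((2 : K) ^ j - 1) * (1 / 2) ^ j * hpe e
    rw [← this, ← hx]
    exact mem_PP_of_range _
  have rb : E21 (((2 : K) ^ j - 1) * (-(2 : K) ^ j)) ∈ PP D.ψ := by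
    obtain ⟨_, ⟨x, hx⟩⟩ := ints D h1 h2 q m hm e (-k * 2 ^ j)
    have : ((m * (-k * 2 ^ j) : ℤ) : K) * (1 / 2 : K) ^ e = ((2 : K) ^ j - 1) * (-(2 : K) ^ j) := by
      have h3 : m * (-k * 2 ^ j) = - (2 ^ e * (2 ^ j - 1)) * 2 ^ j := by rw [← hk]; ring
      rw [h3]; push_cast
      linear_combination (-((2 : K) ^ j - 1) * 2 ^ j) * hpe e
    rw [← this, ← hx]
    exact mem_PP_of_range _
  have rc : Dg ((twoK K) ^ j)⁻¹ ((twoK K) ^ j) ∈ PP D.ψ := by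
    have : Dg ((twoK K) ^ j)⁻¹ ((twoK K) ^ j) =
        Dg ((twoK K) ^ j) ((twoK K) ^ j) * ((Dg (twoK K) 1) ^ (2 * j))⁻¹ := by
      rw [Dg_pow, Dg_inv, Dg_mul]
      congr 1
      · rw [two_mul, pow_add, mul_inv, mul_inv_cancel_left]
      · simp
    rw [this]
    exact (PP D.ψ).mul_mem (scal_mem_PP _) ((PP D.ψ).inv_mem ((PP D.ψ).pow_mem pD _))
  have rT : TT ((2 : K) ^ j - 1) ∈ PP D.ψ := by
    have h3 := ident1 ((twoK K) ^ j)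
    have v1 : (((twoK K) ^ j : Kˣ) : K) = 2 ^ j := by rw [Units.val_pow_eq_pow_val, twoK_val]
    have v2 : ((((twoK K) ^ j)⁻¹ : Kˣ) : K) = (1 / 2) ^ j := by
      rw [Units.val_inv_eq_inv_val, v1]; simp
    rw [v1, v2] at h3
    rw [← h3]
    exact (PP D.ψ).mul_mem ((PP D.ψ).mul_mem ra rb) rc
  have rT' : TT ((2 : K) ^ j) ∈ PP D.ψ := by
    have : TT ((2 : K) ^ j) = (TT 8) ^ (2 ^ (j - 3)) := by
      rw [TT_pow]
      congr 1
      push_cast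
      have : (8 : K) = 2 ^ 3 := by norm_num
      rw [this, ← pow_add]
      congr 1
      omega
    rw [this]
    exact (PP D.ψ).pow_mem pT _
  have rT1 : TT (1 : K) ∈ PP D.ψ := by
    have : TT (1 : K) = TT ((2 : K) ^ j) * (TT ((2 : K) ^ j - 1))⁻¹ := by
      rw [TT_inv, TT_mul]; congr 1; ring
    rw [this]
    exact (PP D.ψ).mul_mem rT' ((PP D.ψ).inv_mem rT)
  have r12 : E12 (1 : K) ∈ PP D.ψ := by
    rw [word1]
    exact (PP D.ψ).mul_mem ((PP D.ψ).mul_mem rT1 ((PP D.ψ).pow_mem ((PP D.ψ).mul_mem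
      ((PP D.ψ).mul_mem pD rT1) ((PP D.ψ).inv_mem pD)) _)) ((PP D.ψ).inv_mem rT1)
  have r21 : E21 (-1 : K) ∈ PP D.ψ := by
    rw [word2]
    exact (PP D.ψ).mul_mem ((PP D.ψ).mul_mem ((PP D.ψ).inv_mem r12) rT1) r12
  have s12 : E12 (1 : K) ∈ D.ψ.range := by
    rw [word3]; exact comm_mem pD r12
  have s21 : E21 (-1 : K) ∈ D.ψ.range := by
    rw [word4]; exact comm_mem ((PP D.ψ).inv_mem pD) r21
  have s0 : E12 (1 : K) * E21 (-1) * E12 1 ∈ D.ψ.range :=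
    D.ψ.range.mul_mem (D.ψ.range.mul_mem s12 s21) s12
  obtain ⟨x, hx⟩ := s0
  have h3 := D.htf x (by rw [hx]; exact w0_fin)
  rw [hx] at h3
  exact w0_ne h3

/-- Every representation with torsion-free image kills `g0`. -/
theorem core [Algebra.IsAlgebraic ℚ K] (ψ : GLp →* GL (Fin 2) K)
    (htf : ∀ x, IsOfFinOrder (ψ x) → ψ x = 1) : ψ g0 = 1 := by
  by_contra hg
  obtain ⟨D⟩ := exists_dat ψ htf hg
  obtain ⟨D', h1, h2⟩ := D.exists_norm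
  exact core_false D' h1 h2

end core

end Pool.Agent.Helper210
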